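import Mathlib
import Pool.Agent.N988.MK.Step
import Pool.Agent.N989.MK.Strong

/-!
# The environment of a hierarchical square: one step, lower bound near the identity
-/

open MeasureTheory Matrix Filter
open scoped Matrix.Norms.Frobenius ContDiff Topology
open Pool.Agent.H906R3.YM Pool.Agent.W793.YM Pool.Agent.TH618.YM Pool.Agent.N984.TW
open Pool.Agent.N991.MK
open Pool.Agent.N988.MK (BC Tf qC St IsoG)
open Pool.Agent.N989.MK (H4)

namespace Pool.Agent.N565.MK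

set_option linter.unusedSectionVars false

noncomputable section

section general

variable {G : Type*} [Group G] [TopologicalSpace G] [IsTopologicalGroup G] [CompactSpace G]
  [MeasurableSpace G] [BorelSpace G] [SecondCountableTopology G]
  (μ : Measure G) [IsProbabilityMeasure μ] [μ.IsMulLeftInvariant] [μ.IsMulRightInvariant]
  [μ.IsInvInvariant]

/-- one step of the environment: the environment of a square of weight `f` inside a square whose
environment is `E'` -/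
def envS (f E' : G → ℝ) : G → ℝ :=
  conv μ (conv μ f (conv μ f f)) (fun x => H4 μ f x ^ 3 * E' x)

variable {μ}

/-- the convolution is associative -/
lemma conv_assoc {a b c : G → ℝ} (ha : Continuous a) (hb : Continuous b) (hc : Continuous c) :
    conv μ (conv μ a b) c = conv μ a (conv μ b c) := by
  funext x
  unfold conv
  have h1 : ∀ z, (∫ y, a y * b (y⁻¹ * z) ∂μ) * c (z⁻¹ * x) =
      ∫ y, a y * b (y⁻¹ * z) * c (z⁻¹ * x) ∂μ := fun z => (integral_mul_const _ _).symm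
  simp only [h1]
  have hcc : Continuous fun p : G × G => a p.2 * b (p.2⁻¹ * p.1) * c (p.1⁻¹ * x) :=
    ((ha.comp continuous_snd).mul (hb.comp (continuous_snd.inv.mul continuous_fst))).mul
      (hc.comp (continuous_fst.inv.mul continuous_const))
  rw [integral_integral_swap (f := fun z y => a y * b (y⁻¹ * z) * c (z⁻¹ * x))
    (hcc.integrable_of_hasCompactSupport (HasCompactSupport.of_compactSpace _))]
  refine integral_congr_ae (Eventually.of_forall fun y => ?_)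
  beta_reduce
  rw [← integral_const_mul, ← integral_mul_left_eq_self (μ := μ) _ y]
  refine integral_congr_ae (Eventually.of_forall fun z => ?_)
  beta_reduce
  have e1 : y⁻¹ * (y * z) = z := by group
  have e2 : (y * z)⁻¹ * x = z⁻¹ * (y⁻¹ * x) := by group
  rw [e1, e2]
  ring

lemma H4_cont {f : G → ℝ} (hf : Continuous f) : Continuous (H4 μ f) :=
  cont_conv (cont_conv hf hf) (cont_conv hf hf)

lemma H4_pos {f : G → ℝ} (hf : Continuous f) (f0 : ∀ x, 0 < f x) (x : G) : 0 < H4 μ f x :=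
  conv_pos (cont_conv hf hf) (cont_conv hf hf) (conv_pos hf hf f0 f0) (conv_pos hf hf f0 f0) x

lemma H4_cls {f : G → ℝ} (hf : Cls f) : Cls (H4 μ f) :=
  conv_cls (conv_cls hf hf) (conv_cls hf hf)

lemma H4_sy {f : G → ℝ} (hf : Cls f) (hs : Sy f) : Sy (H4 μ f) :=
  conv_sy (conv_cls hf hf) (conv_cls hf hf) (conv_sy hf hf hs hs) (conv_sy hf hf hs hs)

lemma g_cont {f E' : G → ℝ} (hf : Continuous f) (hE : Continuous E') :
    Continuous fun x => H4 μ f x ^ 3 * E' x := ((H4_cont hf).pow 3).mul hE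

lemma g_cls {f E' : G → ℝ} (hf : Cls f) (hE : Cls E') : Cls fun x => H4 μ f x ^ 3 * E' x :=
  fun a x => by
    beta_reduce
    rw [hE, H4_cls hf]

lemma g_sy {f E' : G → ℝ} (hf : Cls f) (hs : Sy f) (hE : Sy E') :
    Sy fun x => H4 μ f x ^ 3 * E' x := fun x => by
  beta_reduce
  rw [hE, H4_sy hf hs]

/-- the environment step with the factors in another order -/
lemma envS_eq {f E' : G → ℝ} (hf : Continuous f) (hc : Cls f) (hE : Continuous E') :
    envS μ f E' = conv μ (conv μ f f) (conv μ f (fun x => H4 μ f x ^ 3 * E' x)) := by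
  unfold envS
  rw [conv_comm hc (conv_cls hc hc)]
  exact conv_assoc (cont_conv hf hf) hf (g_cont hf hE)

/-- the convolution with a symmetric function, symmetrised -/
lemma conv_symm {f h : G → ℝ} (hf : Continuous f) (hh : Continuous h) (hs : Sy h) (x : G) :
    conv μ f h x = ∫ y, (f (x * y) + f (x * y⁻¹)) / 2 * h y ∂μ := by
  have h1 : conv μ f h x = ∫ y, f (x * y) * h y ∂μ := by
    unfold conv
    rw [← integral_mul_left_eq_self (μ := μ) (fun y => f y * h (y⁻¹ * x)) x]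
    refine integral_congr_ae (Eventually.of_forall fun y => ?_)
    beta_reduce
    have e : (x * y)⁻¹ * x = y⁻¹ := by group
    rw [e, hs]
  have h2 : conv μ f h x = ∫ y, f (x * y⁻¹) * h y ∂μ := by
    rw [h1, ← integral_inv_eq_self (μ := μ) (fun y => f (x * y) * h y)]
    refine integral_congr_ae (Eventually.of_forall fun y => ?_)
    beta_reduce
    rw [hs]
  have i1 : Integrable (fun y => f (x * y) * h y) μ :=
    integrable_of_cont ((hf.comp (continuous_const.mul continuous_id)).mul hh)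
  have i2 : Integrable (fun y => f (x * y⁻¹) * h y) μ :=
    integrable_of_cont ((hf.comp (continuous_const.mul continuous_inv)).mul hh)
  have h3 : ∫ y, (f (x * y) + f (x * y⁻¹)) / 2 * h y ∂μ =
      (∫ y, f (x * y) * h y ∂μ) / 2 + (∫ y, f (x * y⁻¹) * h y ∂μ) / 2 := by
    rw [← integral_div, ← integral_div, ← integral_add (i1.div_const 2) (i2.div_const 2)]
    refine integral_congr_ae (Eventually.of_forall fun y => ?_)
    beta_reduce
    ring
  rw [h3, ← h1, ← h2]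
  ring

lemma conv_at_one {f h : G → ℝ} (hs : Sy h) : conv μ f h 1 = ∫ y, f y * h y ∂μ := by
  unfold conv
  refine integral_congr_ae (Eventually.of_forall fun y => ?_)
  beta_reduce
  rw [mul_one, hs]

/-- a bound of the convolution by the supremum -/
lemma conv_le {f h : G → ℝ} (hf : Continuous f) (hh : Continuous h) (f0 : ∀ x, 0 ≤ f x)
    (h0 : ∀ x, 0 ≤ h x) {a b : ℝ} (ha : ∀ x, f x ≤ a) (hb : ∀ x, h x ≤ b) (x : G) :
    conv μ f h x ≤ a * b := by
  unfold conv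
  have hc : Continuous fun y => f y * h (y⁻¹ * x) :=
    hf.mul (hh.comp (continuous_inv.mul continuous_const))
  have ha0 : 0 ≤ a := (f0 1).trans (ha 1)
  calc ∫ y, f y * h (y⁻¹ * x) ∂μ ≤ ∫ _y : G, a * b ∂μ :=
        integral_mono (integrable_of_cont hc) (integrable_const _)
          fun y => mul_le_mul (ha _) (hb _) (h0 _) ha0
    _ = a * b := by simp

/-- the near part against the whole -/
lemma ratio {near tot c₀ ε Y : ℝ} (hc : 0 < c₀) (hε : 0 < ε) (h1 : c₀ * Y ≤ near)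
    (h2 : tot ≤ near + ε * Y) : c₀ / (c₀ + ε) * tot ≤ near := by
  rw [div_mul_eq_mul_div, div_le_iff₀ (by positivity)]
  nlinarith

/-- **the soft step** -/
theorem env_soft {f E' : G → ℝ} {c : ℝ} (hf : Continuous f) (hE : Continuous E') (hcls : Cls f)
    (hEc : Cls E') (hfs : Sy f) (hEs : Sy E')
    (f0 : ∀ x, 0 < f x) (E0 : ∀ x, 0 ≤ E' x) (hc : ∀ x y, c * f y ≤ f x) (x : G) :
    c * envS μ f E' 1 ≤ envS μ f E' x := by
  have h2 : Continuous (conv μ f f) := cont_conv hf hf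
  have p2 : ∀ x, 0 < conv μ f f x := conv_pos hf hf f0 f0
  obtain ⟨g, hg⟩ : ∃ g : G → ℝ, g = fun x => H4 μ f x ^ 3 * E' x := ⟨_, rfl⟩
  have hgc : Continuous g := by rw [hg]; exact g_cont hf hE
  have g0 : ∀ x, 0 ≤ g x := fun x => by
    rw [hg]; exact mul_nonneg (pow_nonneg (H4_pos hf f0 x).le 3) (E0 x)
  have gcl : Cls g := by rw [hg]; exact g_cls hcls hEc
  have gsy : Sy g := by rw [hg]; exact g_sy hcls hfs hEs
  obtain ⟨k, hk⟩ : ∃ k : G → ℝ, k = conv μ (conv μ f f) g := ⟨_, rfl⟩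
  have e : envS μ f E' = conv μ f k := by
    unfold envS
    rw [hk, ← hg]
    exact conv_assoc hf h2 hgc
  have hkc : Continuous k := by rw [hk]; exact cont_conv h2 hgc
  have k0 : ∀ x, 0 ≤ k x := fun x => by
    rw [hk]
    exact integral_nonneg fun y => mul_nonneg (p2 _).le (g0 _)
  have hks : Sy k := by
    rw [hk]; exact conv_sy (conv_cls hcls hcls) gcl (conv_sy hcls hcls hfs hfs) gsy
  rw [e, conv_at_one hks, conv_symm hf hkc hks, ← integral_const_mul]
  refine integral_mono (integrable_of_cont (continuous_const.mul (hf.mul hkc)))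
    (integrable_of_cont ((((hf.comp (continuous_const.mul continuous_id)).add
      (hf.comp (continuous_const.mul continuous_inv))).div_const 2).mul hkc)) fun y => ?_
  beta_reduce
  rw [← mul_assoc]
  refine mul_le_mul_of_nonneg_right ?_ (k0 y)
  have a1 := hc (x * y) y
  have a2 := hc (x * y⁻¹) y
  linarith

end general

variable {N n : ℕ} {G : Subgroup (UN N)} {B : Frame G n}
variable {r₀ C : ℝ} {b : (Fin n → ℂ) → (Fin n → ℂ) → (Fin n → ℂ)}
variable {r k M Cq : ℝ} {F : (Mat N)ˣ → ℂ} {m : (Fin n → ℂ) → ℂ} {f : G → ℝ}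

/-- coordinates of a small element of the group, without imaginary part -/
lemma near1 (hr : GoodR B r) {y : G} (hy : nN y ≤ 0.99 * r) :
    ∃ x : Fin n → ℂ, uE B x = uG y ∧ nC x < r ∧ nC x ≤ 1.0001 * nN y ∧ 0.9999 * nN y ≤ nC x ∧
      nC x = nE (reP x) ∧ nE (imP x) = 0 := by
  obtain ⟨x, e1, e2, e3, e4, e5⟩ := hr.near0 hy
  have h1 := nE_re_im x
  rw [e3] at h1
  have h2 := nC_nonneg x
  have h3 := nE_nonneg (reP x)
  have h4 : nC x = nE (reP x) := by nlinarith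
  exact ⟨x, e1, e2, by rw [h4]; exact e5, by rw [h4]; exact e4, h4, e3⟩

variable [CompactSpace G] [MeasurableSpace G] [BorelSpace G]
  {μ : Measure G} [IsProbabilityMeasure μ] [μ.IsMulLeftInvariant] [μ.IsMulRightInvariant]
  [μ.IsInvInvariant]

/-- **the symmetrised shift of a state** -/
theorem sym_lower (h : BC B r₀ C b) (hgr : GoodR B r) (hr : r ≤ r₀) (hG : IsClosed (G : Set (UN N)))
    (hs : St B r k M F m) (hf : CF f F) (hpos : ∀ x, 0 < f x) (hM : 0 ≤ M)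
    (hMr : M * r ^ 2 ≤ k / 1000) (hk : 0 ≤ k)
    (hCq : 0 ≤ Cq) (hq : ∀ x y : Fin n → ℂ, nC x < r₀ → nC y < r₀ →
      ‖Tf b qC x y‖ ≤ Cq * nC x ^ 2 * nC y ^ 2) (hCr : Cq * r ^ 2 ≤ 1 / 20)
    {x y : G} (hx : nN x ≤ r / 8) (hy : nN y ≤ r / 4) :
    f y * Real.exp (-(0.51 * (k * nN x ^ 2))) ≤ (f (x * y) + f (x * y⁻¹)) / 2 := by
  have hp := hgr.pos
  obtain ⟨X, a1, a2, a3, a4, -, -⟩ := near1 hgr (y := x) (by linarith)
  obtain ⟨Y, b1, b2, b3, b4, -, -⟩ := near1 hgr (y := y) (by linarith)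
  have hx0 := nN_nonneg x
  have hy0 := nN_nonneg y
  have hX0 := nC_nonneg X
  have hY0 := nC_nonneg Y
  have hX2 : nC X < r / 2 := by linarith
  have hY3 : nC Y < r / 3 := by linarith
  have hYn : nC (-Y) = nC Y := Pool.Agent.N988.MK.nC_neg Y
  have hF1 : F 1 ≠ 0 := by
    have h1 := hf.res 1
    rw [map_one] at h1
    rw [h1]
    exact_mod_cast (hpos 1).ne'
  have c1 : F (uE B (b X Y)) = (f (x * y) : ℂ) := by
    rw [h.uE_mul (by linarith) (by linarith), a1, b1, ← map_mul, hf.res]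
  have c2 : F (uE B (b X (-Y))) = (f (x * y⁻¹) : ℂ) := by
    rw [h.uE_mul (by linarith) (by rw [hYn]; linarith), uE_neg, a1, b1, ← map_inv, ← map_mul,
      hf.res]
  have c3 : F (uE B Y) = (f y : ℂ) := by rw [b1, hf.res]
  have d1 := hs.eq (b X Y) (h.in_r hr hX2 hY3)
  have d2 := hs.eq (b X (-Y)) (h.in_r hr hX2 (by rw [hYn]; exact hY3))
  have d3 := hs.eq Y b2
  rw [c1] at d1
  rw [c2] at d2
  rw [c3] at d3
  obtain ⟨W, hW⟩ : ∃ W : ℂ, W = k * qC X + 2 * m X + (k / 2 * Tf b qC X Y + Tf b m X Y) :=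
    ⟨_, rfl⟩
  have hprod : (f (x * y) : ℂ) * (f (x * y⁻¹) : ℂ) = (f y : ℂ) ^ 2 * Complex.exp (-W) := by
    rw [d1, d2, d3, mul_pow, ← Complex.exp_nat_mul]
    have e : ∀ A1 A2 A3 A4 : ℂ, A1 + A2 = A3 + A4 → F 1 * Complex.exp A1 *
        (F 1 * Complex.exp A2) = F 1 ^ 2 * Complex.exp A3 * Complex.exp A4 := by
      intro A1 A2 A3 A4 hA
      have : Complex.exp A1 * Complex.exp A2 = Complex.exp A3 * Complex.exp A4 := by
        rw [← Complex.exp_add, ← Complex.exp_add, hA]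
      linear_combination F 1 ^ 2 * this
    refine e _ _ _ _ ?_
    rw [hW]
    unfold Tf
    push_cast
    ring
  have hWn : ‖W‖ ≤ 1.009 * (k * nC X ^ 2) := by
    have t1 : nC X ^ 2 ≤ 0.016 * r ^ 2 := by nlinarith
    have t2 : nC Y ^ 2 ≤ 0.0626 * r ^ 2 := by nlinarith
    have s1 := Pool.Agent.N988.MK.norm_qC_le X
    have s2 := hs.bd X a2
    have s3 := hq X Y (by linarith) (by linarith)
    have s4 := hs.Tm hG hf hF1 h hr hM hX2 hY3
    have hkc : ‖(k : ℂ)‖ = k := by rw [Complex.norm_real, Real.norm_eq_abs, abs_of_nonneg hk]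
    have hkc2 : ‖(k / 2 : ℂ)‖ = k / 2 := by
      rw [norm_div, hkc]; norm_num
    have hn2 : ‖(2 : ℂ)‖ = 2 := by norm_num
    have n1 : ‖W‖ ≤ k * nC X ^ 2 + 2 * (M * nC X ^ 4) +
        (k / 2 * (Cq * nC X ^ 2 * nC Y ^ 2) + 108 * M * nC X ^ 2 * nC Y ^ 2) := by
      rw [hW]
      refine (norm_add_le _ _).trans (add_le_add ((norm_add_le _ _).trans (add_le_add ?_ ?_))
        ((norm_add_le _ _).trans (add_le_add ?_ s4)))
      · rw [norm_mul, hkc]
        exact mul_le_mul_of_nonneg_left s1 hk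
      · rw [norm_mul, hn2]
        exact mul_le_mul_of_nonneg_left s2 (by norm_num)
      · rw [norm_mul, hkc2]
        exact mul_le_mul_of_nonneg_left s3 (by positivity)
    have hXX : 0 ≤ nC X ^ 2 := by positivity
    have hkX : 0 ≤ k * nC X ^ 2 := by positivity
    have p1 : M * nC X ^ 4 ≤ 0.016 / 1000 * (k * nC X ^ 2) := by
      calc M * nC X ^ 4 = M * nC X ^ 2 * nC X ^ 2 := by ring
        _ ≤ M * (0.016 * r ^ 2) * nC X ^ 2 := by gcongr
        _ = 0.016 * (M * r ^ 2) * nC X ^ 2 := by ring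
        _ ≤ 0.016 * (k / 1000) * nC X ^ 2 := by gcongr
        _ = _ := by ring
    have p2 : k / 2 * (Cq * nC X ^ 2 * nC Y ^ 2) ≤ 0.0626 / 40 * (k * nC X ^ 2) := by
      calc k / 2 * (Cq * nC X ^ 2 * nC Y ^ 2) ≤
          k / 2 * (Cq * nC X ^ 2 * (0.0626 * r ^ 2)) := by gcongr
        _ = 0.0626 * (Cq * r ^ 2) * (k / 2 * nC X ^ 2) := by ring
        _ ≤ 0.0626 * (1 / 20) * (k / 2 * nC X ^ 2) := by gcongr
        _ = _ := by ring
    have p3 : 108 * M * nC X ^ 2 * nC Y ^ 2 ≤ 108 * 0.0626 / 1000 * (k * nC X ^ 2) := by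
      calc 108 * M * nC X ^ 2 * nC Y ^ 2 ≤ 108 * M * nC X ^ 2 * (0.0626 * r ^ 2) := by gcongr
        _ = 108 * 0.0626 * (M * r ^ 2) * nC X ^ 2 := by ring
        _ ≤ 108 * 0.0626 * (k / 1000) * nC X ^ 2 := by gcongr
        _ = _ := by ring
    linarith
  have hprodR : f (x * y) * f (x * y⁻¹) = f y ^ 2 * Real.exp (-W.re) := by
    have h1 := congrArg norm hprod
    rw [norm_mul, norm_mul, norm_pow, Complex.norm_real, Complex.norm_real, Complex.norm_real,
      Complex.norm_exp, Real.norm_eq_abs, Real.norm_eq_abs, Real.norm_eq_abs,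
      abs_of_pos (hpos _), abs_of_pos (hpos _), abs_of_pos (hpos _), Complex.neg_re] at h1
    exact h1
  have hWr : W.re ≤ 1.02 * (k * nN x ^ 2) := by
    have h1 := (Complex.re_le_norm W).trans hWn
    have h2 : nC X ^ 2 ≤ 1.0003 * nN x ^ 2 := by nlinarith
    have h3 : k * nC X ^ 2 ≤ k * (1.0003 * nN x ^ 2) := mul_le_mul_of_nonneg_left h2 hk
    have h4 : 0 ≤ k * nN x ^ 2 := by positivity
    nlinarith
  have hlow : (f y * Real.exp (-(0.51 * (k * nN x ^ 2)))) ^ 2 ≤ f (x * y) * f (x * y⁻¹) := by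
    rw [hprodR, mul_pow, ← Real.exp_nat_mul]
    refine mul_le_mul_of_nonneg_left (Real.exp_le_exp.2 ?_) (by positivity)
    push_cast
    linarith
  refine le_of_sq_le_sq ?_ (by have := hpos (x * y); have := hpos (x * y⁻¹); linarith)
  refine hlow.trans ?_
  nlinarith [sq_nonneg (f (x * y) - f (x * y⁻¹))]

/-- **the convolution of a state with a nonnegative symmetric function** -/
theorem conv_lower (h : BC B r₀ C b) (hgr : GoodR B r) (hr : r ≤ r₀)
    (hG : IsClosed (G : Set (UN N)))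
    (hs : St B r k M F m) (hf : CF f F) (hpos : ∀ x, 0 < f x) (hM : 0 ≤ M)
    (hMr : M * r ^ 2 ≤ k / 1000) (hk : 0 ≤ k)
    (hCq : 0 ≤ Cq) (hq : ∀ x y : Fin n → ℂ, nC x < r₀ → nC y < r₀ →
      ‖Tf b qC x y‖ ≤ Cq * nC x ^ 2 * nC y ^ 2) (hCr : Cq * r ^ 2 ≤ 1 / 20)
    {g : G → ℝ} (hg : Continuous g) (hgs : Sy g) (g0 : ∀ x, 0 ≤ g x)
    {x : G} (hx : nN x ≤ r / 8) :
    Real.exp (-(0.51 * (k * nN x ^ 2))) * ∫ y in (bl (r / 4) : Set G), f y * g y ∂μ ≤
      conv μ f g x := by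
  have hfc := hf.cont
  rw [conv_symm hfc hg hgs, ← integral_const_mul]
  have hc1 : Continuous fun y => (f (x * y) + f (x * y⁻¹)) / 2 * g y :=
    (((hfc.comp (continuous_const.mul continuous_id)).add
      (hfc.comp (continuous_const.mul continuous_inv))).div_const 2).mul hg
  have i1 : Integrable (fun y => (f (x * y) + f (x * y⁻¹)) / 2 * g y) μ := integrable_of_cont hc1
  have i2 : Integrable (fun y => Real.exp (-(0.51 * (k * nN x ^ 2))) * (f y * g y)) μ :=
    integrable_of_cont (continuous_const.mul (hfc.mul hg))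
  refine (setIntegral_mono_on i2.integrableOn i1.integrableOn (bl_meas _) fun y hy => ?_).trans
    (setIntegral_le_integral i1 (Eventually.of_forall fun y => ?_))
  · have h1 := sym_lower h hgr hr hG hs hf hpos hM hMr hk hCq hq hCr hx (y := y) hy
    calc Real.exp (-(0.51 * (k * nN x ^ 2))) * (f y * g y) =
        f y * Real.exp (-(0.51 * (k * nN x ^ 2))) * g y := by ring
      _ ≤ _ := mul_le_mul_of_nonneg_right h1 (g0 y)
  · have h1 := hpos (x * y)
    have h2 := hpos (x * y⁻¹)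
    exact mul_nonneg (by linarith) (g0 y)

/-- the Gaussian lower bound near the identity -/
lemma near_low (hr : GoodR B r) (hk : 0 ≤ k) (hM : M * r ^ 2 ≤ k / 1000) (h : CF f F)
    (hpos : ∀ x, 0 < f x) (hn : NearS B r k M F) {z : G} (hz : nN z ≤ r / 2) :
    f 1 * Real.exp (-(0.502 * (k * nN z ^ 2))) ≤ f z := by
  have hp := hr.pos
  obtain ⟨x, e1, e2, e3, e4, e5, e6⟩ := near1 hr (y := z) (by linarith)
  have h1 := hn.lower hp hk hM e2
  rw [e1, e6, h.norm_res, abs_of_pos (hpos z), h.one, abs_of_pos (hpos 1), ← e5] at h1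
  refine le_trans (mul_le_mul_of_nonneg_left (Real.exp_le_exp.2 ?_) (hpos 1).le) h1
  have hz0 := nN_nonneg z
  have hE0 := nC_nonneg x
  have h4 : nC x ^ 2 ≤ 1.0003 * nN z ^ 2 := by nlinarith
  have h5 : k * nC x ^ 2 ≤ k * (1.0003 * nN z ^ 2) := mul_le_mul_of_nonneg_left h4 hk
  have h6 : 0 ≤ k * nN z ^ 2 := by positivity
  nlinarith

/-- the maximum of a state -/
lemma tube_le (hr : GoodR B r) (hk : 0 ≤ k) (h : CF f F) (hpos : ∀ x, 0 < f x)
    (ht : Tube B r k F) (z : G) : f z ≤ f 1 := by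
  have hp := hr.pos
  have h1 := ht 0 z (by rw [nE_zero]; positivity)
  rw [rl_zero', uE_zero, one_mul, h.norm_res, nE_zero, abs_of_pos (hpos z), h.one,
    abs_of_pos (hpos 1)] at h1
  refine h1.trans ?_
  have h2 : Real.exp (k / 2 * (1.01 * 0 ^ 2 - 0.99 * min (nN z) r ^ 2)) ≤ 1 := by
    rw [Real.exp_le_one_iff]
    have : 0 ≤ k * min (nN z) r ^ 2 := by positivity
    nlinarith
  calc f 1 * _ ≤ f 1 * 1 := mul_le_mul_of_nonneg_left h2 (hpos 1).le
    _ = _ := mul_one _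

/-- the upper bound at far points -/
lemma tube_far (hr : GoodR B r) (hk : 0 ≤ k) (h : CF f F) (hpos : ∀ x, 0 < f x)
    (ht : Tube B r k F) {z : G} (hz : r / 4 ≤ nN z) :
    f z ≤ f 1 * Real.exp (-(0.03 * r ^ 2 * k)) := by
  have hp := hr.pos
  have h1 := ht 0 z (by rw [nE_zero]; positivity)
  rw [rl_zero', uE_zero, one_mul, h.norm_res, nE_zero, abs_of_pos (hpos z), h.one,
    abs_of_pos (hpos 1)] at h1
  refine h1.trans (mul_le_mul_of_nonneg_left (Real.exp_le_exp.2 ?_) (hpos 1).le)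
  have h2 : (r / 4) ^ 2 ≤ min (nN z) r ^ 2 :=
    pow_le_pow_left₀ (by positivity) (le_min hz (by linarith)) 2
  have h3 : k * (r / 4) ^ 2 ≤ k * min (nN z) r ^ 2 := mul_le_mul_of_nonneg_left h2 hk
  have h4 : 0 ≤ r ^ 2 * k := by positivity
  nlinarith

/-- lower bound of a convolution on a ball -/
lemma conv_ball {f g : G → ℝ} (hf : Continuous f) (hg : Continuous g) (f0 : ∀ x, 0 ≤ f x)
    (g0 : ∀ x, 0 ≤ g x) {s R a L : ℝ} (hL : 0 ≤ L) (ha : ∀ y, nN y ≤ s → a ≤ f y)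
    (hl : ∀ z, nN z ≤ R + s → L ≤ g z) {x : G} (hx : nN x ≤ R) :
    a * L * μ.real (bl s : Set G) ≤ conv μ f g x := by
  unfold conv
  have hc : Continuous fun y => f y * g (y⁻¹ * x) :=
    hf.mul (hg.comp (continuous_inv.mul continuous_const))
  have hi : Integrable (fun y => f y * g (y⁻¹ * x)) μ := integrable_of_cont hc
  calc a * L * μ.real (bl s : Set G) = ∫ _y in (bl s : Set G), a * L ∂μ := by
        rw [setIntegral_const, smul_eq_mul, mul_comm]
    _ ≤ ∫ y in (bl s : Set G), f y * g (y⁻¹ * x) ∂μ := by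
        refine setIntegral_mono_on (integrable_const _).integrableOn hi.integrableOn (bl_meas _)
          fun y hy => ?_
        have hy' : nN y ≤ s := hy
        have h1 : nN (y⁻¹ * x) ≤ R + s := by
          have := nN_mul_le y⁻¹ x
          rw [nN_inv] at this
          linarith
        exact mul_le_mul (ha y hy') (hl _ h1) hL (f0 y)
    _ ≤ _ := setIntegral_le_integral hi (Eventually.of_forall fun y => mul_nonneg (f0 _) (g0 _))

/-- the part of an integral outside a ball -/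
lemma split_le {φ : G → ℝ} (hφ : Continuous φ) {R a : ℝ} (ha : 0 ≤ a)
    (h : ∀ y : G, R < nN y → φ y ≤ a) :
    ∫ y, φ y ∂μ ≤ ∫ y in (bl R : Set G), φ y ∂μ + a := by
  have hi : Integrable φ μ := integrable_of_cont hφ
  rw [← integral_add_compl (bl_meas R) hi]
  refine add_le_add le_rfl ?_
  calc ∫ y in (bl R : Set G)ᶜ, φ y ∂μ ≤ ∫ _y in (bl R : Set G)ᶜ, a ∂μ := by
        refine setIntegral_mono_on hi.integrableOn (integrable_const _).integrableOn
          (bl_meas R).compl fun y hy => h y (not_le.1 hy)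
    _ = μ.real ((bl R : Set G)ᶜ) * a := by rw [setIntegral_const, smul_eq_mul]
    _ ≤ 1 * a := mul_le_mul_of_nonneg_right measureReal_le_one ha
    _ = a := one_mul a

/-- the maximum of a convolution square -/
lemma conv_sq_le {f : G → ℝ} (hf : Continuous f) (hs : Sy f) (x : G) :
    conv μ f f x ≤ conv μ f f 1 := by
  rw [conv_one hs]
  have h1 : ∫ y, f (y⁻¹ * x) ^ 2 ∂μ = ∫ y, f y ^ 2 ∂μ := by
    rw [← integral_mul_left_eq_self (μ := μ) (fun y => f (y⁻¹ * x) ^ 2) x,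
      ← integral_inv_eq_self (μ := μ) (fun y => f y ^ 2)]
    refine integral_congr_ae (Eventually.of_forall fun y => ?_)
    beta_reduce
    have e : (x * y)⁻¹ * x = y⁻¹ := by group
    rw [e]
  have i1 : Integrable (fun y => f y ^ 2) μ := integrable_of_cont (hf.pow 2)
  have i2 : Integrable (fun y => f (y⁻¹ * x) ^ 2) μ :=
    integrable_of_cont ((hf.comp (continuous_inv.mul continuous_const)).pow 2)
  have i3 : Integrable (fun y => f y * f (y⁻¹ * x)) μ :=
    integrable_of_cont (hf.mul (hf.comp (continuous_inv.mul continuous_const)))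
  have h2 : ∫ y, (f y ^ 2 / 2 + f (y⁻¹ * x) ^ 2 / 2) ∂μ = ∫ y, f y ^ 2 ∂μ := by
    rw [integral_add (i1.div_const 2) (i2.div_const 2), integral_div, integral_div, h1]
    ring
  unfold conv
  rw [← h2]
  refine integral_mono i3 ((i1.div_const 2).add (i2.div_const 2)) fun y => ?_
  beta_reduce
  nlinarith [sq_nonneg (f y - f (y⁻¹ * x))]

/-- **the convolution square of a state near the identity** -/
theorem sq_near (μ : Measure G) [IsProbabilityMeasure μ] [μ.IsMulLeftInvariant]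
    [μ.IsMulRightInvariant] [μ.IsInvInvariant] (h : BC B r₀ C b) (hgr : GoodR B r) (hr : r ≤ r₀)
    (hG : IsClosed (G : Set (UN N)))
    (hCq : 0 ≤ Cq) (hq : ∀ x y : Fin n → ℂ, nC x < r₀ → nC y < r₀ →
      ‖Tf b qC x y‖ ≤ Cq * nC x ^ 2 * nC y ^ 2) (hCr : Cq * r ^ 2 ≤ 1 / 20) :
    ∃ k₀ : ℝ, 1 ≤ k₀ ∧ ∀ {k M : ℝ} {f : G → ℝ} {F : (Mat N)ˣ → ℂ} {m : (Fin n → ℂ) → ℂ},
      k₀ ≤ k → 0 ≤ M → M * r ^ 2 ≤ k / 1000 → CF f F → (∀ x, 0 < f x) → St B r k M F m →
      Tube B r k F → ∀ z, nN z ≤ r / 8 →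
      1 / 2 * Real.exp (-(0.51 * (k * nN z ^ 2))) * conv μ f f 1 ≤ conv μ f f z := by
  obtain ⟨c, hc, D, hlow⟩ := int_lower_pow (B := B) μ
  have hp := hgr.pos
  obtain ⟨k1, hk1, hexp⟩ := exp_beats (0.06 * r ^ 2) (c / 2) (by positivity) (by positivity) 0 D
  refine ⟨max k1 (16 / r ^ 2), hk1.trans (le_max_left _ _),
    fun {k M f F m} hk hM hMr hf hpos hs ht z hz => ?_⟩
  have hka : k1 ≤ k := (le_max_left _ _).trans hk
  have hkb : 16 / r ^ 2 ≤ k := (le_max_right _ _).trans hk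
  have hk0 : 0 < k := by linarith
  have hfc := hf.cont
  have h1 := conv_lower (μ := μ) h hgr hr hG hs hf hpos hM hMr hk0.le hCq hq hCr hfc hf.symR
    (fun x => (hpos x).le) hz
  have h2 : ∫ y, f y * f y ∂μ = conv μ f f 1 := (conv_at_one hf.symR).symm
  have h3 : ∫ y, f y * f y ∂μ ≤ ∫ y in (bl (r / 4) : Set G), f y * f y ∂μ +
      (f 1 * Real.exp (-(0.03 * r ^ 2 * k))) ^ 2 := by
    refine split_le (hfc.mul hfc) (by positivity) fun y hy => ?_
    have h4 := tube_far hgr hk0.le hf hpos ht hy.le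
    rw [sq]
    exact mul_le_mul h4 h4 (hpos y).le (mul_nonneg (hpos 1).le (Real.exp_pos _).le)
  have h4 : (f 1 * Real.exp (-(0.03 * r ^ 2 * k))) ^ 2 ≤ 1 / 2 * ∫ y, f y * f y ∂μ := by
    have h5 := hlow hgr hkb hMr hf hs.nearS
    have h6 := hexp k hka
    rw [hf.one, abs_of_pos (hpos 1)] at h5
    have e1 : ∫ z, f z ^ 2 ∂μ = ∫ y, f y * f y ∂μ := by simp only [sq]
    rw [e1] at h5
    have e2 : (f 1 * Real.exp (-(0.03 * r ^ 2 * k))) ^ 2 =
        f 1 ^ 2 * Real.exp (0 - 0.06 * r ^ 2 * k) := by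
      rw [mul_pow, ← Real.exp_nat_mul]
      congr 2
      push_cast
      ring
    rw [e2]
    have hkD : 0 < k ^ D := by positivity
    refine le_of_mul_le_mul_left ?_ hkD
    calc k ^ D * (f 1 ^ 2 * Real.exp (0 - 0.06 * r ^ 2 * k)) =
        f 1 ^ 2 * (Real.exp (0 - 0.06 * r ^ 2 * k) * k ^ D) := by ring
      _ ≤ f 1 ^ 2 * (c / 2) := mul_le_mul_of_nonneg_left h6 (sq_nonneg _)
      _ = 1 / 2 * (f 1 ^ 2 * c) := by ring
      _ ≤ 1 / 2 * (k ^ D * ∫ y, f y * f y ∂μ) := by linarith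
      _ = _ := by ring
  have h5 : 1 / 2 * conv μ f f 1 ≤ ∫ y in (bl (r / 4) : Set G), f y * f y ∂μ := by
    rw [← h2]; linarith
  calc 1 / 2 * Real.exp (-(0.51 * (k * nN z ^ 2))) * conv μ f f 1 =
      Real.exp (-(0.51 * (k * nN z ^ 2))) * (1 / 2 * conv μ f f 1) := by ring
    _ ≤ _ := mul_le_mul_of_nonneg_left h5 (Real.exp_pos _).le
    _ ≤ _ := h1

/-- **the environment step, with the state of the convolution square** -/
theorem env_aux (μ : Measure G) [IsProbabilityMeasure μ] [μ.IsMulLeftInvariant]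
    [μ.IsMulRightInvariant] [μ.IsInvInvariant] (h : BC B r₀ C b) (hgr : GoodR B r) (hr : r ≤ r₀)
    (hG : IsClosed (G : Set (UN N)))
    (hCq : 0 ≤ Cq) (hq : ∀ x y : Fin n → ℂ, nC x < r₀ → nC y < r₀ →
      ‖Tf b qC x y‖ ≤ Cq * nC x ^ 2 * nC y ^ 2) (hCr : Cq * r ^ 2 ≤ 1 / 20) :
    ∃ k₀ : ℝ, 1 ≤ k₀ ∧ ∀ {k k' M M' : ℝ} {f : G → ℝ} {F : (Mat N)ˣ → ℂ} {m' : (Fin n → ℂ) → ℂ}
      {E' : G → ℝ} {c₀ : ℝ},
      k₀ ≤ k' → k' ≤ k → k ≤ 4 * k' → M * r ^ 2 ≤ k / 1000 → 0 ≤ M' → M' * r ^ 2 ≤ k' / 1000 →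
      CF f F → (∀ x, 0 < f x) → NearS B r k M F → Tube B r k F →
      St B r k' M' (convC μ F F) m' → Tube B r k' (convC μ F F) →
      Continuous E' → Cls E' → Sy E' → (∀ x, 0 ≤ E' x) → (∀ x, E' x ≤ E' 1) → 0 < c₀ →
      (∀ x, nN x ≤ r / 8 → c₀ * E' 1 * Real.exp (-(k * nN x ^ 2)) ≤ E' x) →
      ∀ x, nN x ≤ r / 8 → c₀ / (c₀ + Real.exp (-(r ^ 2 / 400 * k))) * envS μ f E' 1 *
        Real.exp (-(0.51 * (k' * nN x ^ 2))) ≤ envS μ f E' x := by
  obtain ⟨c, hc, D, hv⟩ := vol_lower μ (G := G)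
  have hp := hgr.pos
  obtain ⟨κ, hκ⟩ : ∃ κ : ℝ, κ = Real.exp (-1) * (Real.exp (-3) *
    ((1 / 2 * Real.exp (-5)) ^ 3 * Real.exp (-36))) := ⟨_, rfl⟩
  have hκ0 : 0 < κ := by rw [hκ]; positivity
  obtain ⟨k1, hk1, hexp⟩ := exp_beats (0.02 * r ^ 2) (κ * c ^ 2) (by positivity) (by positivity)
    0 (2 * D)
  obtain ⟨k2, hk2, hsq⟩ := sq_near μ h hgr hr hG hCq hq hCr
  refine ⟨max (max k1 k2) (576 / r ^ 2), hk1.trans ((le_max_left _ _).trans (le_max_left _ _)),
    fun {k k' M M' f F m' E' c₀} hk hkk hkk' hMr hM' hMr' hf hpos hn ht hs' ht' hE hEc hEs E0 E1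
      hc₀ hEl x hx => ?_⟩
  have hka : k1 ≤ k' := (le_max_left _ _).trans ((le_max_left _ _).trans hk)
  have hkb : k2 ≤ k' := (le_max_right _ _).trans ((le_max_left _ _).trans hk)
  have hkc : 576 / r ^ 2 ≤ k' := (le_max_right _ _).trans hk
  have hk1' : 1 ≤ k' := hk1.trans hka
  have hk'0 : 0 < k' := by linarith
  have hk0 : 0 < k := by linarith
  have hfc := hf.cont
  have hcls := hf.clsR
  have hsy := hf.symR
  obtain ⟨f2, hf2⟩ : ∃ f2 : G → ℝ, f2 = conv μ f f := ⟨_, rfl⟩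
  have hF2 : CF f2 (convC μ F F) := by rw [hf2]; exact hf.convC hf
  have hp2 : ∀ x, 0 < f2 x := by rw [hf2]; exact conv_pos hfc hfc hpos hpos
  have h2c := hF2.cont
  obtain ⟨g, hg⟩ : ∃ g : G → ℝ, g = fun x => H4 μ f x ^ 3 * E' x := ⟨_, rfl⟩
  have hgc : Continuous g := by rw [hg]; exact g_cont hfc hE
  have g0 : ∀ x, 0 ≤ g x := fun x => by
    rw [hg]; exact mul_nonneg (pow_nonneg (H4_pos hfc hpos x).le 3) (E0 x)
  have gcl : Cls g := by rw [hg]; exact g_cls hcls hEc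
  have gsy : Sy g := by rw [hg]; exact g_sy hcls hsy hEs
  obtain ⟨q, hqd⟩ : ∃ q : G → ℝ, q = conv μ f g := ⟨_, rfl⟩
  have hqc : Continuous q := by rw [hqd]; exact cont_conv hfc hgc
  have q0 : ∀ x, 0 ≤ q x := fun x => by
    rw [hqd]; exact integral_nonneg fun y => mul_nonneg (hpos _).le (g0 _)
  have qsy : Sy q := by rw [hqd]; exact conv_sy hcls gcl hsy gsy
  have e : envS μ f E' = conv μ f2 q := by
    rw [envS_eq hfc hcls hE, hf2, hqd, hg]
  obtain ⟨H, hH⟩ : ∃ H, H = H4 μ f 1 := ⟨_, rfl⟩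
  have hH0 : 0 < H := by rw [hH]; exact H4_pos hfc hpos 1
  have hE10 : 0 ≤ E' 1 := E0 1
  -- the scale
  have hsk : 0 < Real.sqrt k' := Real.sqrt_pos.2 hk'0
  obtain ⟨s, hsd⟩ : ∃ s : ℝ, s = 1 / Real.sqrt k' := ⟨_, rfl⟩
  have hs0 : 0 < s := by rw [hsd]; positivity
  have hss : k' * s ^ 2 = 1 := by
    rw [hsd, div_pow, Real.sq_sqrt hk'0.le]; field_simp
  have h3s : 3 * s ≤ r / 8 := by
    have h1 : Real.sqrt (576 / r ^ 2) ≤ Real.sqrt k' := Real.sqrt_le_sqrt hkc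
    have h2 : Real.sqrt (576 / r ^ 2) = 24 / r := by
      rw [show 576 / r ^ 2 = (24 / r) ^ 2 by ring, Real.sqrt_sq (by positivity)]
    rw [h2] at h1
    rw [hsd, ← mul_div_assoc, mul_one, div_le_iff₀ hsk]
    calc (3 : ℝ) = r / 8 * (24 / r) := by field_simp; norm_num
      _ ≤ r / 8 * Real.sqrt k' := by gcongr
  obtain ⟨V, hV⟩ : ∃ V, V = μ.real (bl s : Set G) := ⟨_, rfl⟩
  have hV0 : 0 ≤ V := by rw [hV]; exact measureReal_nonneg
  have hVl : c * s ^ D ≤ V := by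
    rw [hV]
    exact hv s hs0 (by
      rw [hsd, div_le_one hsk]
      exact Real.one_le_sqrt.2 hk1')
  -- the lower bound of the inner function
  obtain ⟨L1, hL1⟩ : ∃ L1, L1 = (1 / 2 * Real.exp (-5) * H) ^ 3 *
    (c₀ * E' 1 * Real.exp (-36)) := ⟨_, rfl⟩
  have hL10 : 0 ≤ L1 := by rw [hL1]; positivity
  have hgl : ∀ z : G, nN z ≤ 3 * s → L1 ≤ g z := by
    intro z hz
    have hz0 := nN_nonneg z
    have h1 : nN z ^ 2 ≤ 9 * s ^ 2 := by
      calc nN z ^ 2 ≤ (3 * s) ^ 2 := pow_le_pow_left₀ hz0 hz 2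
        _ = _ := by ring
    have h2 : k' * nN z ^ 2 ≤ 9 := by
      calc k' * nN z ^ 2 ≤ k' * (9 * s ^ 2) := mul_le_mul_of_nonneg_left h1 hk'0.le
        _ = 9 * (k' * s ^ 2) := by ring
        _ = 9 := by rw [hss, mul_one]
    have h3 : k * nN z ^ 2 ≤ 36 := by
      calc k * nN z ^ 2 ≤ 4 * k' * nN z ^ 2 := mul_le_mul_of_nonneg_right hkk' (sq_nonneg _)
        _ ≤ 36 := by linarith
    have h4 := hsq hkb hM' hMr' hF2 hp2 hs' ht' z (hz.trans h3s)
    have e4 : conv μ f2 f2 = H4 μ f := by rw [hf2]; rfl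
    rw [e4, ← hH] at h4
    have h5 : 1 / 2 * Real.exp (-5) * H ≤ H4 μ f z := by
      refine le_trans ?_ h4
      refine mul_le_mul_of_nonneg_right (mul_le_mul_of_nonneg_left (Real.exp_le_exp.2 ?_)
        (by norm_num)) hH0.le
      linarith
    have h6 : c₀ * E' 1 * Real.exp (-36) ≤ E' z := by
      refine le_trans ?_ (hEl z (hz.trans h3s))
      exact mul_le_mul_of_nonneg_left (Real.exp_le_exp.2 (by linarith)) (by positivity)
    rw [hL1, hg]
    beta_reduce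
    exact mul_le_mul (pow_le_pow_left₀ (by positivity) h5 3) h6 (by positivity)
      (pow_nonneg (H4_pos hfc hpos z).le 3)
  have hql : ∀ z : G, nN z ≤ 2 * s → f 1 * Real.exp (-3) * L1 * V ≤ q z := by
    intro z hz
    rw [hV, hqd]
    refine conv_ball hfc hgc (fun x => (hpos x).le) g0 (R := 2 * s) hL10 (fun y hy => ?_)
      (fun y hy => hgl y (by linarith)) hz
    have hy0 := nN_nonneg y
    have h1 := near_low hgr hk0.le hMr hf hpos hn (z := y) (by linarith)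
    refine le_trans (mul_le_mul_of_nonneg_left (Real.exp_le_exp.2 ?_) (hpos 1).le) h1
    have h2 : nN y ^ 2 ≤ s ^ 2 := pow_le_pow_left₀ hy0 hy 2
    have h3 : k * nN y ^ 2 ≤ 4 := by
      calc k * nN y ^ 2 ≤ 4 * k' * s ^ 2 := mul_le_mul hkk' h2 (sq_nonneg _) (by linarith)
        _ = 4 * (k' * s ^ 2) := by ring
        _ = 4 := by rw [hss, mul_one]
    linarith
  have hl2 : 0 ≤ f 1 * Real.exp (-3) * L1 * V := by
    have := (hpos 1).le
    positivity
  obtain ⟨near, hnear⟩ : ∃ near, near = ∫ y in (bl (r / 4) : Set G), f2 y * q y ∂μ := ⟨_, rfl⟩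
  have hint : Integrable (fun y => f2 y * q y) μ := integrable_of_cont (h2c.mul hqc)
  obtain ⟨X, hX⟩ : ∃ X, X = f2 1 * (f 1 * (H ^ 3 * E' 1)) := ⟨_, rfl⟩
  have hX0 : 0 ≤ X := by
    have h1 := (hpos 1).le
    have h2 := (hp2 1).le
    rw [hX]; positivity
  have hn1 : c₀ * (κ * V ^ 2 * X) ≤ near := by
    have h1 : ∀ y ∈ (bl s : Set G), f2 1 * Real.exp (-1) * (f 1 * Real.exp (-3) * L1 * V) ≤
        f2 y * q y := by
      intro y hy
      have hy' : nN y ≤ s := hy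
      have hy0 := nN_nonneg y
      have h2 := near_low hgr hk'0.le hMr' hF2 hp2 hs'.nearS (z := y) (by linarith)
      have h3 : k' * nN y ^ 2 ≤ 1 := by
        calc k' * nN y ^ 2 ≤ k' * s ^ 2 :=
              mul_le_mul_of_nonneg_left (pow_le_pow_left₀ hy0 hy' 2) hk'0.le
          _ = 1 := hss
      have h4 : f2 1 * Real.exp (-1) ≤ f2 y := by
        refine le_trans (mul_le_mul_of_nonneg_left (Real.exp_le_exp.2 ?_) (hp2 1).le) h2
        linarith
      exact mul_le_mul h4 (hql y (by linarith)) hl2 (hp2 y).le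
    calc c₀ * (κ * V ^ 2 * X) =
        V * (f2 1 * Real.exp (-1) * (f 1 * Real.exp (-3) * L1 * V)) := by
          rw [hκ, hX, hL1]; ring
      _ = ∫ _y in (bl s : Set G), f2 1 * Real.exp (-1) * (f 1 * Real.exp (-3) * L1 * V) ∂μ := by
          rw [setIntegral_const, smul_eq_mul, ← hV]
      _ ≤ ∫ y in (bl s : Set G), f2 y * q y ∂μ :=
          setIntegral_mono_on (integrable_const _).integrableOn hint.integrableOn (bl_meas _) h1
      _ ≤ near := by
          rw [hnear]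
          exact setIntegral_mono_set hint.integrableOn
            (Eventually.of_forall fun y => mul_nonneg (hp2 y).le (q0 y))
            (Eventually.of_forall (bl_mono (by linarith)))
  have hqle : ∀ y, q y ≤ f 1 * (H ^ 3 * E' 1) := by
    intro y
    rw [hqd]
    refine conv_le hfc hgc (fun x => (hpos x).le) g0 (tube_le hgr hk0.le hf hpos ht)
      (fun z => ?_) y
    rw [hg]
    beta_reduce
    have h1 : H4 μ f z ≤ H := by
      have := conv_sq_le (μ := μ) h2c hF2.symR z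
      rw [hH]
      rw [hf2] at this
      exact this
    exact mul_le_mul (pow_le_pow_left₀ (H4_pos hfc hpos z).le h1 3) (E1 z) (E0 z) (by positivity)
  have htot : ∫ y, f2 y * q y ∂μ ≤ near + Real.exp (-(r ^ 2 / 400 * k)) * (κ * V ^ 2 * X) := by
    have h1 : ∫ y, f2 y * q y ∂μ ≤ near + Real.exp (-(0.03 * r ^ 2 * k')) * X := by
      rw [hnear]
      refine split_le (h2c.mul hqc) (by positivity) fun y hy => ?_
      have h4 := tube_far hgr hk'0.le hF2 hp2 ht' hy.le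
      calc f2 y * q y ≤ f2 1 * Real.exp (-(0.03 * r ^ 2 * k')) * (f 1 * (H ^ 3 * E' 1)) :=
            mul_le_mul h4 (hqle y) (q0 y) (mul_nonneg (hp2 1).le (Real.exp_pos _).le)
        _ = _ := by rw [hX]; ring
    refine h1.trans (add_le_add le_rfl ?_)
    rw [← mul_assoc]
    refine mul_le_mul_of_nonneg_right ?_ hX0
    have h2 := hexp k' hka
    have h3 : Real.exp (-(0.01 * r ^ 2 * k')) ≤ Real.exp (-(r ^ 2 / 400 * k)) := by
      refine Real.exp_le_exp.2 ?_
      have : r ^ 2 * k ≤ r ^ 2 * (4 * k') := mul_le_mul_of_nonneg_left hkk' (sq_nonneg r)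
      linarith
    have h4 : Real.exp (-(0.03 * r ^ 2 * k')) = Real.exp (-(0.01 * r ^ 2 * k')) *
        Real.exp (0 - 0.02 * r ^ 2 * k') := by
      rw [← Real.exp_add]; congr 1; ring
    have h5 : c ^ 2 ≤ k' ^ (2 * D) * V ^ 2 := by
      have h6 : c * s ^ D * (c * s ^ D) ≤ V * V :=
        mul_le_mul hVl hVl (by positivity) hV0
      have h7 : (1 : ℝ) ≤ k' ^ (2 * D) * (s ^ D * s ^ D) := by
        have h8 : s ^ D * s ^ D = (s ^ 2) ^ D := by rw [← mul_pow, ← sq]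
        have h9 : k' ^ (2 * D) = k' ^ D * k' ^ D := by rw [two_mul, pow_add]
        have h10 : k' ^ D * (s ^ 2) ^ D = 1 := by rw [← mul_pow, hss, one_pow]
        calc (1 : ℝ) ≤ k' ^ D := one_le_pow₀ hk1'
          _ = k' ^ D * (k' ^ D * (s ^ 2) ^ D) := by rw [h10, mul_one]
          _ = _ := by rw [h8, h9]; ring
      calc c ^ 2 = c ^ 2 * 1 := (mul_one _).symm
        _ ≤ c ^ 2 * (k' ^ (2 * D) * (s ^ D * s ^ D)) := by gcongr
        _ = k' ^ (2 * D) * (c * s ^ D * (c * s ^ D)) := by ring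
        _ ≤ k' ^ (2 * D) * (V * V) := by gcongr
        _ = _ := by ring
    have h6 : Real.exp (0 - 0.02 * r ^ 2 * k') ≤ κ * V ^ 2 := by
      have hkD : 0 < k' ^ (2 * D) := by positivity
      refine le_of_mul_le_mul_left ?_ hkD
      calc k' ^ (2 * D) * Real.exp (0 - 0.02 * r ^ 2 * k') =
          Real.exp (0 - 0.02 * r ^ 2 * k') * k' ^ (2 * D) := by ring
        _ ≤ κ * c ^ 2 := h2
        _ ≤ κ * (k' ^ (2 * D) * V ^ 2) := by gcongr
        _ = _ := by ring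
    rw [h4]
    calc Real.exp (-(0.01 * r ^ 2 * k')) * Real.exp (0 - 0.02 * r ^ 2 * k') ≤
        Real.exp (-(r ^ 2 / 400 * k)) * (κ * V ^ 2) :=
          mul_le_mul h3 h6 (Real.exp_pos _).le (Real.exp_pos _).le
      _ = _ := by ring
  have h1 := conv_lower (μ := μ) h hgr hr hG hs' hF2 hp2 hM' hMr' hk'0.le hCq hq hCr hqc qsy q0 hx
  rw [← hnear, ← e] at h1
  have h2 : ∫ y, f2 y * q y ∂μ = envS μ f E' 1 := by rw [e, conv_at_one qsy]
  have h3 := ratio hc₀ (Real.exp_pos _) hn1 htot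
  rw [h2] at h3
  calc _ = Real.exp (-(0.51 * (k' * nN x ^ 2))) *
        (c₀ / (c₀ + Real.exp (-(r ^ 2 / 400 * k))) * envS μ f E' 1) := by ring
    _ ≤ Real.exp (-(0.51 * (k' * nN x ^ 2))) * near :=
        mul_le_mul_of_nonneg_left h3 (Real.exp_pos _).le
    _ ≤ _ := h1

/-- **The lower bound of the environment near the identity, one step.** -/
theorem env_lower (μ : Measure G) [IsProbabilityMeasure μ] [μ.IsMulLeftInvariant]
    [μ.IsMulRightInvariant] [μ.IsInvInvariant] {cA : ℝ} (hG : IsClosed (G : Set (UN N)))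
    (hI : IsoG B) (hn : 0 < n)
    (hcA : ∀ x : Fin n → ℝ, ∑ a, ‖LX B x * B.X a - B.X a * LX B x‖ ^ 2 = cA * nE x ^ 2) :
    ∃ r₁ ε₁ : ℝ, 0 < r₁ ∧ 0 < ε₁ ∧ ε₁ ≤ 1 / 1000 ∧ ∀ r : ℝ, 0 < r → r ≤ r₁ →
      ∃ η k₀ : ℝ, 0 < η ∧ 1 ≤ k₀ ∧ ∀ {k M : ℝ} {f : G → ℝ} {F : (Mat N)ˣ → ℂ}
        {m : (Fin n → ℂ) → ℂ} {E' : G → ℝ} {c₀ : ℝ}, k₀ ≤ k → 0 ≤ M → M * r ^ 2 ≤ ε₁ * k →
        CF f F → (∀ x, 0 < f x) → St B r k M F m → Tube B r k F →
        Continuous E' → Cls E' → Sy E' → (∀ x, 0 ≤ E' x) → (∀ x, E' x ≤ E' 1) → 0 < c₀ →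
        (∀ x, nN x ≤ r / 8 → c₀ * E' 1 * Real.exp (-(k * nN x ^ 2)) ≤ E' x) →
        ∀ x, nN x ≤ r / 8 → c₀ / (c₀ + Real.exp (-(η * k))) * envS μ f E' 1 *
          Real.exp (-(k / 2 * nN x ^ 2)) ≤ envS μ f E' x := by
  obtain ⟨r₀, C, b, Cq, Cu, Cs, Cp, T⟩ := Pool.Agent.N988.MK.exists_Cst B hG
  obtain ⟨r₁, ε₁, hr₁, hε₁, hε1, hD⟩ := Pool.Agent.N988.MK.step_D (B := B) μ hG hI hn hcA
  have hr₀ := T.h.pos
  have hCq := T.hCq
  obtain ⟨r₂, hr₂⟩ : ∃ r₂ : ℝ, r₂ = min (min r₁ r₀) (min 1 (1 / (20 * (Cq + 1)))) := ⟨_, rfl⟩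
  have hr₂0 : 0 < r₂ := by rw [hr₂]; positivity
  refine ⟨r₂, ε₁, hr₂0, hε₁, hε1, fun r hr hrr => ?_⟩
  rw [hr₂] at hrr
  simp only [le_min_iff] at hrr
  obtain ⟨⟨h1, h2⟩, h3, h4⟩ := hrr
  obtain ⟨hgr, k₁, K, hk₁, hK, hD⟩ := hD ε₁ hε₁ le_rfl r hr h1
  have hCr : Cq * r ^ 2 ≤ 1 / 20 := by
    have h5 : r * (20 * (Cq + 1)) ≤ 1 := by rwa [le_div_iff₀ (by positivity)] at h4
    nlinarith [mul_nonneg hCq hr.le, mul_nonneg (mul_nonneg hCq hr.le) (sub_nonneg.2 h3)]
  obtain ⟨k₂, hk₂, hA⟩ := env_aux (B := B) μ T.h hgr h2 hG hCq T.hq hCr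
  refine ⟨r ^ 2 / 400, max (max k₁ (4 * k₂)) (4 * K), by positivity,
    hk₁.trans ((le_max_left _ _).trans (le_max_left _ _)),
    fun {k M f F m E' c₀} hk hM hMr hf hpos hs ht hE hEc hEs E0 E1 hc₀ hEl x hx => ?_⟩
  have hka : k₁ ≤ k := (le_max_left _ _).trans ((le_max_left _ _).trans hk)
  have hkb : 4 * k₂ ≤ k := (le_max_right _ _).trans ((le_max_left _ _).trans hk)
  have hkc : 4 * K ≤ k := (le_max_right _ _).trans hk
  have hk0 : 0 < k := by linarith
  obtain ⟨k', M', m', a1, a2, a3, a4, a5, a6, a7⟩ := hD hka hM hMr hf hpos hs ht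
  rw [abs_le] at a2
  have hk'0 : 0 < k' := by linarith
  have hMr1 : M * r ^ 2 ≤ k / 1000 := by
    refine hMr.trans ?_
    have : ε₁ * k ≤ 1 / 1000 * k := mul_le_mul_of_nonneg_right hε1 hk0.le
    linarith
  have hMr2 : M' * r ^ 2 ≤ k' / 1000 := by
    refine a5.trans ?_
    have : ε₁ * k' ≤ 1 / 1000 * k' := mul_le_mul_of_nonneg_right hε1 hk'0.le
    linarith
  have h5 := hA (by linarith) (by linarith) (by linarith) hMr1 a3 hMr2 hf hpos hs.nearS ht a6 a7
    hE hEc hEs E0 E1 hc₀ hEl x hx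
  refine le_trans (mul_le_mul_of_nonneg_left (Real.exp_le_exp.2 ?_) ?_) h5
  · have h6 : k' * nN x ^ 2 ≤ (k / 2 + K) * nN x ^ 2 :=
      mul_le_mul_of_nonneg_right (by linarith) (sq_nonneg _)
    have h7 : 4 * K * nN x ^ 2 ≤ k * nN x ^ 2 := mul_le_mul_of_nonneg_right hkc (sq_nonneg _)
    nlinarith
  · have h8 : 0 ≤ envS μ f E' 1 := by
      have hfc := hf.cont
      unfold envS conv
      refine integral_nonneg fun y => ?_
      beta_reduce
      have h9 := H4_pos (μ := μ) hfc hpos (y⁻¹ * 1)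
      have h10 : 0 < conv μ f (conv μ f f) y :=
        conv_pos hfc (cont_conv hfc hfc) hpos (conv_pos hfc hfc hpos hpos) y
      exact mul_nonneg h10.le (mul_nonneg (pow_nonneg h9.le 3) (E0 _))
    have h9 := Real.exp_pos (-(r ^ 2 / 400 * k))
    positivity

end

end Pool.Agent.N565.MK
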