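import Mathlib
import Pool.Agent.N565.MK.Env
import Pool.Agent.N989.MK.PD

/-!
# The environment of a hierarchical square is admissible and positive definite
-/

open MeasureTheory Matrix Filter
open Pool.Agent.N991.MK
open Pool.Agent.N989.MK (H4 TT TTn Adm PDf)

namespace Pool.Agent.N565.MK

set_option linter.unusedSectionVars false

noncomputable section

section alg

variable {G : Type*} [Group G]

/-- positive definiteness with an arbitrary finite index type -/
lemma pd_fin {f : G → ℝ} (hf : PDf f) {ι : Type*} [Fintype ι] (x : ι → G) :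
    (Matrix.of fun i j => f ((x i)⁻¹ * x j)).PosSemidef := by
  have h := (hf (Fintype.card ι) (fun a => x ((Fintype.equivFin ι).symm a))).submatrix
    (Fintype.equivFin ι)
  have e : (Matrix.of fun i j => f ((x ((Fintype.equivFin ι).symm i))⁻¹ *
      x ((Fintype.equivFin ι).symm j))).submatrix (Fintype.equivFin ι) (Fintype.equivFin ι) =
      Matrix.of fun i j => f ((x i)⁻¹ * x j) := by
    ext i j
    simp
  rwa [e] at h

/-- a symmetric positive definite function has its maximum at the identity -/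
lemma pd_le {f : G → ℝ} (hf : PDf f) (hs : Sy f) (x : G) : f x ≤ f 1 := by
  have h := (Matrix.posSemidef_iff_dotProduct_mulVec.1 (hf 2 ![1, x])).2 ![1, -1]
  simp only [dotProduct, Matrix.mulVec, Matrix.of_apply, star_trivial, Fin.sum_univ_two,
    Matrix.cons_val_zero, Matrix.cons_val_one] at h
  have h1 := hs x
  simp only [inv_one, one_mul, mul_one, inv_mul_cancel] at h
  rw [h1] at h
  linarith

/-- the kernel of a convolution of class functions -/
lemma pd_kernel {f g : G → ℝ} (hf : PDf f) (hg : PDf g) (hgc : Cls g) (hgs : Sy g) (k : ℕ)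
    (x : Fin k → G) (v : Fin k → ℝ) :
    PDf fun y => ∑ i, ∑ j, v i * (f y * g (y⁻¹ * ((x i)⁻¹ * x j))) * v j := by
  intro k' y
  have hA := pd_fin hf (fun p : Fin k' × Fin k => y p.1)
  have hB := pd_fin hg (fun p : Fin k' × Fin k => y p.1 * (x p.2)⁻¹)
  have hAB := hA.hadamard hB
  obtain ⟨V, hV⟩ : ∃ V : Matrix (Fin k' × Fin k) (Fin k') ℝ,
    V = Matrix.of fun p a => if p.1 = a then v p.2 else 0 := ⟨_, rfl⟩
  have h := hAB.conjTranspose_mul_mul_same V
  have e : Vᴴ * ((Matrix.of fun i j : Fin k' × Fin k => f ((y i.1)⁻¹ * y j.1)) ⊙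
      (Matrix.of fun i j : Fin k' × Fin k => g ((y i.1 * (x i.2)⁻¹)⁻¹ * (y j.1 * (x j.2)⁻¹)))) *
      V = Matrix.of fun a b => ∑ i, ∑ j, v i * (f ((y a)⁻¹ * y b) *
        g (((y a)⁻¹ * y b)⁻¹ * ((x i)⁻¹ * x j))) * v j := by
    ext a b
    rw [Matrix.mul_apply]
    simp only [Matrix.mul_apply, Matrix.conjTranspose_apply, star_trivial, Matrix.hadamard_apply,
      Matrix.of_apply, hV]
    rw [Fintype.sum_prod_type, Finset.sum_eq_single b]
    · have h1 : ∀ j : Fin k, (∑ p : Fin k' × Fin k, (if p.1 = a then v p.2 else 0) *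
          (f ((y p.1)⁻¹ * y b) * g ((y p.1 * (x p.2)⁻¹)⁻¹ * (y b * (x j)⁻¹)))) =
          ∑ i, v i * (f ((y a)⁻¹ * y b) * g (((y a)⁻¹ * y b)⁻¹ * ((x i)⁻¹ * x j))) := by
        intro j
        rw [Fintype.sum_prod_type, Finset.sum_eq_single a]
        · refine Finset.sum_congr rfl fun i _ => ?_
          rw [if_pos rfl]
          congr 2
          have e1 : (y a * (x i)⁻¹)⁻¹ * (y b * (x j)⁻¹) =
              x i * (((y a)⁻¹ * y b) * (x j)⁻¹) := by group
          rw [e1, hgc.swap, ← hgs]
          have e2 : ((y a)⁻¹ * y b * (x j)⁻¹ * x i)⁻¹ =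
              (x i)⁻¹ * (x j * ((y a)⁻¹ * y b)⁻¹) := by group
          rw [e2, hgc.swap]
          have e3 : x j * ((y a)⁻¹ * y b)⁻¹ * (x i)⁻¹ = x j * (((y a)⁻¹ * y b)⁻¹ * (x i)⁻¹) := by
            group
          rw [e3, hgc.swap]
          congr 1
          group
        · intro c _ hc
          refine Finset.sum_eq_zero fun i _ => ?_
          rw [if_neg hc, zero_mul]
        · intro hh
          exact absurd (Finset.mem_univ _) hh
      simp only [if_true, h1]
      rw [Finset.sum_comm]
      refine Finset.sum_congr rfl fun j _ => ?_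
      rw [Finset.sum_mul]
    · intro c _ hc
      refine Finset.sum_eq_zero fun j _ => ?_
      rw [if_neg hc, mul_zero]
    · intro hh
      exact absurd (Finset.mem_univ _) hh
  rw [e] at h
  exact h

end alg

variable {G : Type*} [Group G] [TopologicalSpace G] [IsTopologicalGroup G] [CompactSpace G]
  [MeasurableSpace G] [BorelSpace G] [SecondCountableTopology G]
  {μ : Measure G} [IsProbabilityMeasure μ] [μ.IsHaarMeasure] [μ.IsMulRightInvariant]
  [μ.IsInvInvariant]

/-- **the convolution of positive definite class functions is positive definite** -/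
theorem pd_conv {f g : G → ℝ} (cf : Continuous f) (cg : Continuous g) (hf : PDf f) (hg : PDf g)
    (hfc : Cls f) (hgc : Cls g) (hfs : Sy f) (hgs : Sy g) : PDf (conv μ f g) := by
  intro k x
  rw [Matrix.posSemidef_iff_dotProduct_mulVec]
  refine ⟨?_, fun v => ?_⟩
  · ext i j
    simp only [Matrix.conjTranspose_apply, Matrix.of_apply, star_trivial]
    rw [← conv_sy hfc hgc hfs hgs]
    congr 1
    group
  · have h1 := Pool.Agent.N989.MK.PDf.int_nonneg (μ := μ)
      (F := fun y => ∑ i, ∑ j, v i * (f y * g (y⁻¹ * ((x i)⁻¹ * x j))) * v j) (by fun_prop)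
      (pd_kernel hf hg hgc hgs k x v)
    have hint : ∀ i j, Integrable
        (fun y => v i * (f y * g (y⁻¹ * ((x i)⁻¹ * x j))) * v j) μ :=
      fun i j => integrable_of_cont (by fun_prop)
    rw [integral_finsetSum _ fun i _ => integrable_finsetSum _ fun j _ => hint i j] at h1
    refine h1.trans (le_of_eq ?_)
    simp only [dotProduct, Matrix.mulVec, Matrix.of_apply, star_trivial]
    refine Finset.sum_congr rfl fun i _ => ?_
    rw [integral_finsetSum _ fun j _ => hint i j, Finset.mul_sum]
    refine Finset.sum_congr rfl fun j _ => ?_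
    rw [integral_mul_const, integral_const_mul]
    unfold conv
    ring

/-- the environment step of admissible functions is admissible -/
theorem envS_adm {f E' : G → ℝ} (hf : Adm f) (hE : Adm E') : Adm (envS μ f E') := by
  have hfc := hf.cont
  have h2c : Continuous (conv μ f f) := cont_conv hfc hfc
  have h3c : Continuous (conv μ f (conv μ f f)) := cont_conv hfc h2c
  have cl3 : Cls (conv μ f (conv μ f f)) := conv_cls hf.cls (conv_cls hf.cls hf.cls)
  have sy3 : Sy (conv μ f (conv μ f f)) :=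
    conv_sy hf.cls (conv_cls hf.cls hf.cls) hf.sy (conv_sy hf.cls hf.cls hf.sy hf.sy)
  have p3 : ∀ x, 0 < conv μ f (conv μ f f) x :=
    conv_pos hfc h2c hf.pos (conv_pos hfc hfc hf.pos hf.pos)
  exact ⟨cont_conv h3c (g_cont hfc hE.cont),
    conv_pos h3c (g_cont hfc hE.cont) p3
      (fun x => mul_pos (pow_pos (H4_pos hfc hf.pos x) 3) (hE.pos x)),
    conv_cls cl3 (g_cls hf.cls hE.cls), conv_sy cl3 (g_cls hf.cls hE.cls) sy3
      (g_sy hf.cls hf.sy hE.sy)⟩

/-- **the environment step of positive definite functions is positive definite** -/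
theorem envS_pd {f E' : G → ℝ} (hf : Adm f) (hE : Adm E') (pf : PDf f) (pE : PDf E') :
    PDf (envS μ f E') := by
  have hfc := hf.cont
  have h2c : Continuous (conv μ f f) := cont_conv hfc hfc
  have cl2 : Cls (conv μ f f) := conv_cls hf.cls hf.cls
  have sy2 : Sy (conv μ f f) := conv_sy hf.cls hf.cls hf.sy hf.sy
  have p2 : PDf (conv μ f f) := Pool.Agent.N989.MK.PDf.conv hfc hf.sy
  have p4 : PDf (H4 μ f) := Pool.Agent.N989.MK.PDf.conv h2c sy2
  have p3 : PDf (conv μ f (conv μ f f)) := pd_conv hfc h2c pf p2 hf.cls cl2 hf.sy sy2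
  exact pd_conv (cont_conv hfc h2c) (g_cont hfc hE.cont) p3 ((p4.pow 3).mul pE)
    (conv_cls hf.cls cl2) (g_cls hf.cls hE.cls) (conv_sy hf.cls cl2 hf.sy sy2)
    (g_sy hf.cls hf.sy hE.sy)

/-- the renormalised weights are positive definite -/
theorem pd_TT {w : G → ℝ} (hw : Adm w) : PDf (TT μ w) := by
  have h : PDf (H4 μ w) := Pool.Agent.N989.MK.PDf.conv (cont_conv hw.cont hw.cont)
    (conv_sy hw.cls hw.cls hw.sy hw.sy)
  exact h.pow 4

/-- the environment has its maximum at the identity -/
theorem envS_le {f E' : G → ℝ} (hf : Adm f) (hE : Adm E') (pf : PDf f) (pE : PDf E') (x : G) :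
    envS μ f E' x ≤ envS μ f E' 1 := pd_le (envS_pd hf hE pf pE) (envS_adm hf hE).sy x

variable (μ) in
/-- the environment of a square of level `j` inside a square of level `j + d`, for the plaquette
weight `w` -/
def env (w : G → ℝ) : ℕ → ℕ → G → ℝ
  | _, 0 => fun _ => 1
  | j, d + 1 => envS μ (TTn μ w j) (env w (j + 1) d)

theorem env_adm {w : G → ℝ} (hw : Adm w) : ∀ d j, Adm (env μ w j d)
  | 0, _ => ⟨continuous_const, fun _ => one_pos, fun _ _ => rfl, fun _ => rfl⟩
  | d + 1, j => envS_adm (Adm.TTn hw j) (env_adm hw d (j + 1))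

theorem env_pd {w : G → ℝ} (hw : Adm w) : ∀ d j, 1 ≤ j → PDf (env μ w j d)
  | 0, _, _ => Pool.Agent.N989.MK.PDf.one
  | d + 1, j, hj => by
    obtain ⟨i, rfl⟩ : ∃ i, j = i + 1 := ⟨j - 1, by omega⟩
    exact envS_pd (Adm.TTn hw _) (env_adm hw d _) (pd_TT (Adm.TTn hw i))
      (env_pd hw d _ (by omega))

theorem env_le {w : G → ℝ} (hw : Adm w) (d j : ℕ) (hj : 1 ≤ j) (x : G) :
    env μ w j d x ≤ env μ w j d 1 := pd_le (env_pd hw d j hj) (env_adm hw d j).sy x

/-- the environment of a square inside a larger one, seen from a coarser lattice -/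
theorem env_TTn (w : G → ℝ) (i : ℕ) : ∀ d j, env μ (TTn μ w i) j d = env μ w (i + j) d
  | 0, _ => rfl
  | d + 1, j => by
    change envS μ (TTn μ (TTn μ w i) j) (env μ (TTn μ w i) (j + 1) d) =
      envS μ (TTn μ w (i + j)) (env μ w (i + j + 1) d)
    rw [env_TTn w i d (j + 1), Pool.Agent.N989.MK.TTn_add, add_assoc]

end

end Pool.Agent.N565.MK
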