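import Mathlib
import Pool.Agent.N839.T3.Sc3

/-!
# Scaling limits of the partition functions of the hierarchical squares
-/

set_option autoImplicit false

open MeasureTheory Filter Matrix Pool.Agent.N991.MK Pool.Agent.N989.MK
open scoped Matrix.Norms.Frobenius Topology
open Pool.Agent.H906R3.YM Pool.Agent.W793.YM Pool.Agent.TH618.YM Pool.Agent.N984.TW
open Pool.Agent.N109.T3 (nz gs cvR ZR)
open Pool.Agent.N839.T3 (SD)

namespace Pool.Agent.N565.MK

set_option linter.unusedSectionVars false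

noncomputable section

/-- the number of integrations -/
def Nc : ℕ → ℕ
  | 0 => 0
  | j + 1 => 4 * (4 * Nc j + 3)

variable {N n : ℕ} {G : Subgroup (UN N)} {B : Frame G n} {hG : IsClosed (G : Set (UN N))}
  {ι : Type*} {l : Filter ι} {h : ι → ℝ} {f g : ι → G → ℝ} {F Γ : (Fin n → ℝ) → ℝ}

lemma SD.zero (top : Tendsto h l atTop) : SD B hG l h (fun _ _ => 0) (fun _ => 0) where
  top := top
  cont := fun _ => continuous_const
  lim := fun _ => tendsto_const_nhds
  dom := ⟨0, 1, le_rfl, one_pos, Eventually.of_forall fun i z => by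
    rw [abs_zero, zero_mul]⟩

/-- linear combinations with converging coefficients -/
lemma SD.lin {κ : Type*} (s : Finset κ) (top : Tendsto h l atTop) {c : κ → ι → ℝ} {c0 : κ → ℝ}
    {f : κ → ι → G → ℝ} {F : κ → (Fin n → ℝ) → ℝ} (hc : ∀ k ∈ s, Tendsto (c k) l (𝓝 (c0 k)))
    (H : ∀ k ∈ s, SD B hG l h (f k) (F k)) :
    SD B hG l h (fun i x => ∑ k ∈ s, c k i * f k i x) (fun x => ∑ k ∈ s, c0 k * F k x) := by
  classical
  induction s using Finset.induction_on with
  | empty =>
    refine (SD.zero top).congr (fun i x => ?_) fun x => ?_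
    · rw [Finset.sum_empty]
    · rw [Finset.sum_empty]
  | insert a s ha ih =>
    have h1 := (H a (Finset.mem_insert_self a s)).smul (hc a (Finset.mem_insert_self a s))
    have h2 := ih (fun k hk => hc k (Finset.mem_insert_of_mem hk))
      fun k hk => H k (Finset.mem_insert_of_mem hk)
    refine (h1.add h2).congr (fun i x => ?_) fun x => ?_
    · rw [Finset.sum_insert ha]
    · rw [Finset.sum_insert ha]

/-- products of four functions -/
lemma SD.prod4 {f : Fin 4 → ι → G → ℝ} {F : Fin 4 → (Fin n → ℝ) → ℝ}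
    (H : ∀ k, SD B hG l h (f k) (F k)) :
    SD B hG l h (fun i x => ∏ k, f k i x) (fun x => ∏ k, F k x) := by
  refine ((((H 0).mul (H 1)).mul (H 2)).mul (H 3)).congr (fun i x => ?_) fun x => ?_
  · rw [Fin.prod_univ_four]
  · rw [Fin.prod_univ_four]

/-- products of a function with converging bounded factors: powers -/
lemma SD.pow_succ (H : SD B hG l h f F) (k : ℕ) :
    SD B hG l h (fun i x => f i x ^ (k + 1)) (fun x => F x ^ (k + 1)) := by
  induction k with
  | zero =>
    refine H.congr (fun i x => ?_) fun x => ?_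
    · rw [zero_add, pow_one]
    · rw [zero_add, pow_one]
  | succ k ih =>
    refine (ih.mul H).congr (fun i x => ?_) fun x => ?_
    · rw [_root_.pow_succ]
    · rw [_root_.pow_succ]

/-- finite non-empty products -/
lemma SD.prod {κ : Type*} (s : Finset κ) (hs : s.Nonempty) {f : κ → ι → G → ℝ}
    {F : κ → (Fin n → ℝ) → ℝ} (H : ∀ k ∈ s, SD B hG l h (f k) (F k)) :
    SD B hG l h (fun i x => ∏ k ∈ s, f k i x) (fun x => ∏ k ∈ s, F k x) := by
  classical
  induction hs using Finset.Nonempty.cons_induction with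
  | singleton a =>
    refine (H a (Finset.mem_singleton_self a)).congr (fun i x => ?_) fun x => ?_
    · rw [Finset.prod_singleton]
    · rw [Finset.prod_singleton]
  | cons a s ha hs ih =>
    have h1 := H a (Finset.mem_cons_self a s)
    have h2 := ih fun k hk => H k (Finset.mem_cons_of_mem hk)
    refine (h1.mul h2).congr (fun i x => ?_) fun x => ?_
    · rw [Finset.prod_cons]
    · rw [Finset.prod_cons]

section measure

variable [MeasurableSpace G] [BorelSpace G] {μ : Measure G}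

lemma conv_div (f g : G → ℝ) (a b : ℝ) (x : G) :
    Pool.Agent.N991.MK.conv μ (fun y => f y / a) (fun y => g y / b) x =
      Pool.Agent.N991.MK.conv μ f g x / (a * b) := by
  unfold Pool.Agent.N991.MK.conv
  rw [← integral_div]
  refine integral_congr_ae (Eventually.of_forall fun y => ?_)
  beta_reduce
  rw [div_mul_div_comm]

lemma cvR_div (f g : (Fin n → ℝ) → ℝ) (a b : ℝ) (x : Fin n → ℝ) :
    cvR (fun y => f y / a) (fun y => g y / b) x = cvR f g x / (a * b) := by
  unfold cvR
  rw [← integral_div]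
  refine integral_congr_ae (Eventually.of_forall fun y => ?_)
  beta_reduce
  rw [div_mul_div_comm]

variable [IsProbabilityMeasure μ] [μ.IsMulLeftInvariant] [μ.IsMulRightInvariant] [μ.IsInvInvariant]

/-- normalised convolution of normalised functions -/
lemma SD.conv' [l.IsCountablyGenerated] {a b : ℕ}
    (H : SD B hG l h (fun i x => f i x / nz μ (h i) ^ a) (fun x => F x / (∫ y, gs (n := n) y) ^ a))
    (K : SD B hG l h (fun i x => g i x / nz μ (h i) ^ b) (fun x => Γ x / (∫ y, gs (n := n) y) ^ b)) :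
    SD B hG l h (fun i x => Pool.Agent.N991.MK.conv μ (f i) (g i) x / nz μ (h i) ^ (a + b + 1))
      (fun x => cvR F Γ x / (∫ y, gs (n := n) y) ^ (a + b + 1)) := by
  refine (Pool.Agent.N839.T3.SD.conv (μ := μ) H K).congr (fun i x => ?_) fun x => ?_
  · rw [conv_div, div_div, ← pow_add, ← _root_.pow_succ]
  · rw [cvR_div, div_div, ← pow_add, ← _root_.pow_succ]

/-- fourfold convolutions -/
lemma SD.c4' [l.IsCountablyGenerated] {f : Fin 4 → ι → G → ℝ} {F : Fin 4 → (Fin n → ℝ) → ℝ} {a : ℕ}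
    (H : ∀ k, SD B hG l h (fun i x => f k i x / nz μ (h i) ^ a)
      (fun x => F k x / (∫ y, gs (n := n) y) ^ a)) :
    SD B hG l h (fun i x => c4 μ (fun k => f k i) x / nz μ (h i) ^ (4 * a + 3))
      (fun x => cvR (cvR (F 0) (F 1)) (cvR (F 2) (F 3)) x / (∫ y, gs (n := n) y) ^ (4 * a + 3)) := by
  have h1 := SD.conv' (SD.conv' (H 0) (H 1)) (SD.conv' (H 2) (H 3))
  have e : a + a + 1 + (a + a + 1) + 1 = 4 * a + 3 := by ring
  rw [e] at h1
  exact h1

/-- **the partition functions with arbitrary weights of the plaquettes converge, in the scaled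
coordinates, to those of the theory on `ℝ ^ n`** -/
theorem SD.ZZ [l.IsCountablyGenerated] : ∀ (j : ℕ) {w : Pq j → ι → G → ℝ}
    {γ : Pq j → (Fin n → ℝ) → ℝ}, (∀ p, SD B hG l h (w p) (γ p)) →
    SD B hG l h (fun i x => Pool.Agent.N989.MK.ZZ μ j (fun p => w p i) x / nz μ (h i) ^ Nc j)
      (fun x => ZR j γ x / (∫ y, gs (n := n) y) ^ Nc j)
  | 0, w, γ, H => by
    refine (H ()).congr (fun i x => ?_) fun x => ?_
    · change w () i x / nz μ (h i) ^ 0 = _
      rw [pow_zero, div_one]
    · change γ () x / _ ^ 0 = _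
      rw [pow_zero, div_one]
  | j + 1, w, γ, H => by
    have h1 : ∀ s : Fin 4, SD B hG l h
        (fun i x => c4 μ (fun r => Pool.Agent.N989.MK.ZZ μ j (fun p => w (s, r, p) i)) x /
          nz μ (h i) ^ (4 * Nc j + 3))
        (fun x => cvR (cvR (ZR j fun p => γ (s, 0, p)) (ZR j fun p => γ (s, 1, p)))
          (cvR (ZR j fun p => γ (s, 2, p)) (ZR j fun p => γ (s, 3, p))) x /
            (∫ y, gs (n := n) y) ^ (4 * Nc j + 3)) := fun s =>
      SD.c4' (f := fun r i => Pool.Agent.N989.MK.ZZ μ j (fun p => w (s, r, p) i))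
        (F := fun r => ZR j fun p => γ (s, r, p)) fun r => SD.ZZ j fun p => H (s, r, p)
    refine (SD.prod4 h1).congr (fun i x => ?_) fun x => ?_
    · change (∏ s : Fin 4, c4 μ (fun r => Pool.Agent.N989.MK.ZZ μ j (fun p => w (s, r, p) i)) x) /
        nz μ (h i) ^ (4 * (4 * Nc j + 3)) = _
      rw [Finset.prod_div_distrib, Finset.prod_const, Finset.card_univ, Fintype.card_fin, ← pow_mul,
        mul_comm 4 (4 * Nc j + 3)]
    · change (∏ s : Fin 4, _) / _ ^ (4 * (4 * Nc j + 3)) = _
      rw [Finset.prod_div_distrib, Finset.prod_const, Finset.card_univ, Fintype.card_fin, ← pow_mul,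
        mul_comm 4 (4 * Nc j + 3)]

/-- **ratios of integrals of partition functions** -/
theorem SD.ratio [l.IsCountablyGenerated] [l.NeBot] (j : ℕ) {w w' : Pq j → ι → G → ℝ}
    {γ γ' : Pq j → (Fin n → ℝ) → ℝ} (H : ∀ p, SD B hG l h (w p) (γ p))
    (H' : ∀ p, SD B hG l h (w' p) (γ' p)) (hnz : ∀ i, nz μ (h i) ≠ 0)
    (hgs : (∫ y, gs (n := n) y) ≠ 0) (h0 : (∫ x, ZR j γ' x) ≠ 0) :
    Tendsto (fun i => (∫ x, Pool.Agent.N989.MK.ZZ μ j (fun p => w p i) x ∂μ) /
      ∫ x, Pool.Agent.N989.MK.ZZ μ j (fun p => w' p i) x ∂μ) l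
      (𝓝 ((∫ x, ZR j γ x) / ∫ x, ZR j γ' x)) := by
  have h1 := (SD.ZZ (μ := μ) j H).int_lim (μ := μ)
  have h2 := (SD.ZZ (μ := μ) j H').int_lim (μ := μ)
  simp only [integral_div] at h1 h2
  have h3 : (∫ x, ZR j γ' x) / (∫ y, gs (n := n) y) ^ Nc j / (∫ y, gs (n := n) y) ≠ 0 :=
    div_ne_zero (div_ne_zero h0 (pow_ne_zero _ hgs)) hgs
  have h4 := h1.div h2 h3
  have e1 : (∫ x, ZR j γ x) / (∫ y, gs (n := n) y) ^ Nc j / (∫ y, gs (n := n) y) /
      ((∫ x, ZR j γ' x) / (∫ y, gs (n := n) y) ^ Nc j / (∫ y, gs (n := n) y)) =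
      (∫ x, ZR j γ x) / ∫ x, ZR j γ' x := by
    rw [div_div_div_cancel_right₀ hgs, div_div_div_cancel_right₀ (pow_ne_zero _ hgs)]
  rw [e1] at h4
  refine h4.congr fun i => ?_
  change _ / nz μ (h i) ^ Nc j / nz μ (h i) / (_ / nz μ (h i) ^ Nc j / nz μ (h i)) = _
  rw [div_div_div_cancel_right₀ (hnz i), div_div_div_cancel_right₀ (pow_ne_zero _ (hnz i))]

end measure

end

end Pool.Agent.N565.MK
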