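import Mathlib
import Pool.Agent.N989.MK.Defs

/-!
# Closed two-forms on the hierarchical squares

`exact_iff`: a function on the plaquettes is the curvature of a one-form if and only if in every
square of every level the four sheets have the same total flux (the theorem of Stokes and the lemma
of Poincare).
-/

set_option autoImplicit false

open Pool.Agent.N989.MK

namespace Pool.Agent.N565.MK

noncomputable section

/-- the curvature of the one-form `A` -/
def cv {j : ℕ} (A : Ed j → ℝ) (p : Pq j) : ℝ :=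
  A (bd j p 0) + A (bd j p 1) - A (bd j p 2) - A (bd j p 3)

/-- the total flux (through the sheets number `0`) -/
def flx : ∀ j : ℕ, (Pq j → ℝ) → ℝ
  | 0, Y => Y ()
  | j + 1, Y => ∑ q : Fin 4, flx j fun p => Y (0, q, p)

/-- in every square of every level the four sheets have the same total flux -/
def Clo : ∀ j : ℕ, (Pq j → ℝ) → Prop
  | 0, _ => True
  | j + 1, Y => (∀ s q : Fin 4, Clo j fun p => Y (s, q, p)) ∧
      ∀ s : Fin 4, ∑ q : Fin 4, flx j (fun p => Y (s, q, p)) =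
        ∑ q : Fin 4, flx j (fun p => Y (0, q, p))

/-- the circulation along the boundary -/
def bs {j : ℕ} (V : BE j → ℝ) : ℝ :=
  ∑ k, V (0, k) + ∑ k, V (1, k) - ∑ k, V (2, k) - ∑ k, V (3, k)

theorem sum_pos {n : ℕ} (f : Fin (2 ^ (n + 1)) → ℝ) :
    ∑ k, f k = ∑ k, f (pos 0 k) + ∑ k, f (pos 1 k) := by
  have h1 : 2 ^ (n + 1) = 2 ^ n + 2 ^ n := by rw [pow_succ, mul_two]
  rw [← Equiv.sum_comp (finCongr h1.symm) f, Fin.sum_univ_add]
  refine congrArg₂ (· + ·) (Finset.sum_congr rfl fun k _ => ?_) (Finset.sum_congr rfl fun k _ => ?_)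
  · congr 1
    apply Fin.ext
    change (k : ℕ) = (0 : ℕ) * 2 ^ n + (k : ℕ)
    ring
  · congr 1
    apply Fin.ext
    change 2 ^ n + (k : ℕ) = (1 : ℕ) * 2 ^ n + (k : ℕ)
    ring

/-- the boundary values of the quarter `q` of a sheet with the boundary values `V` and the values
`m` on the middle paths -/
def qb {n : ℕ} (V : BE (n + 1) → ℝ) (m : Fin 4 → Fin (2 ^ n) → ℝ) (q : Fin 4) : BE n → ℝ :=
  fun e => match side q e.1 with
    | .inl (j, h) => V (j, pos h e.2)
    | .inr j => m j e.2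

theorem qb0 {n : ℕ} (V : BE (n + 1) → ℝ) (m : Fin 4 → Fin (2 ^ n) → ℝ) : bs (qb V m 0) =
    ∑ k, V (0, pos 0 k) + ∑ k, m 2 k - ∑ k, m 0 k - ∑ k, V (3, pos 0 k) := rfl

theorem qb1 {n : ℕ} (V : BE (n + 1) → ℝ) (m : Fin 4 → Fin (2 ^ n) → ℝ) : bs (qb V m 1) =
    ∑ k, V (0, pos 1 k) + ∑ k, V (1, pos 0 k) - ∑ k, m 1 k - ∑ k, m 2 k := rfl

theorem qb2 {n : ℕ} (V : BE (n + 1) → ℝ) (m : Fin 4 → Fin (2 ^ n) → ℝ) : bs (qb V m 2) =
    ∑ k, m 0 k + ∑ k, m 3 k - ∑ k, V (2, pos 0 k) - ∑ k, V (3, pos 1 k) := rfl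

theorem qb3 {n : ℕ} (V : BE (n + 1) → ℝ) (m : Fin 4 → Fin (2 ^ n) → ℝ) : bs (qb V m 3) =
    ∑ k, m 1 k + ∑ k, V (1, pos 1 k) - ∑ k, V (2, pos 1 k) - ∑ k, m 3 k := rfl

theorem sum_qb {n : ℕ} (V : BE (n + 1) → ℝ) (m : Fin 4 → Fin (2 ^ n) → ℝ) :
    ∑ q : Fin 4, bs (qb V m q) = bs V := by
  rw [Fin.sum_univ_four, qb0, qb1, qb2, qb3]
  unfold bs
  rw [sum_pos fun k => V (0, k), sum_pos fun k => V (1, k), sum_pos fun k => V (2, k),
    sum_pos fun k => V (3, k)]
  ring

theorem emb_inl {n : ℕ} (A : Ed (n + 1) → ℝ) (s q : Fin 4) (e : BE n) :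
    A (emb s q (.inl e)) =
      qb (fun b => A (.inl b)) (fun j k => A (.inr (.inl (s, j, k)))) q e := by
  obtain ⟨i, k⟩ := e
  unfold qb emb
  rcases h : side q i with ⟨j, h'⟩ | j
  · simp only [h]
  · simp only [h]

/-- the theorem of Stokes -/
theorem stokes : ∀ (j : ℕ) (A : Ed j → ℝ), flx j (cv A) = bs fun b => A (.inl b)
  | 0, A => by
    change A (.inl (0, 0)) + A (.inl (1, 0)) - A (.inl (2, 0)) - A (.inl (3, 0)) = _
    unfold bs
    simp only [Nat.pow_zero, Finset.univ_unique, Finset.sum_singleton]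
    rfl
  | j + 1, A => by
    change ∑ q : Fin 4, flx j (cv fun e => A (emb 0 q e)) = _
    rw [← sum_qb (fun b => A (.inl b)) fun j k => A (.inr (.inl (0, j, k)))]
    refine Finset.sum_congr rfl fun q _ => ?_
    rw [stokes j]
    congr 1
    funext e
    exact emb_inl A 0 q e

theorem stokes' (j : ℕ) (A : Ed (j + 1) → ℝ) (s : Fin 4) :
    ∑ q : Fin 4, flx j (fun p => cv A (s, q, p)) = bs fun b => A (.inl b) := by
  change ∑ q : Fin 4, flx j (cv fun e => A (emb s q e)) = _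
  rw [← sum_qb (fun b => A (.inl b)) fun j k => A (.inr (.inl (s, j, k)))]
  refine Finset.sum_congr rfl fun q _ => ?_
  rw [stokes j]
  congr 1
  funext e
  exact emb_inl A s q e

theorem clo_cv : ∀ (j : ℕ) (A : Ed j → ℝ), Clo j (cv A)
  | 0, _ => trivial
  | j + 1, A => ⟨fun s q => clo_cv j fun e => A (emb s q e), fun s => by
      rw [stokes' j A s, stokes' j A 0]⟩

/-- the lemma of Poincare, with given boundary values -/
theorem poincare : ∀ (j : ℕ) (Y : Pq j → ℝ), Clo j Y → ∀ V : BE j → ℝ, bs V = flx j Y →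
    ∃ A : Ed j → ℝ, (∀ b, A (.inl b) = V b) ∧ ∀ p, cv A p = Y p
  | 0, Y, _, V, hV => by
    refine ⟨Sum.elim V fun _ => 0, fun b => rfl, fun p => ?_⟩
    change V (0, 0) + V (1, 0) - V (2, 0) - V (3, 0) = Y ()
    change _ = Y () at hV
    rw [← hV]
    unfold bs
    simp only [Nat.pow_zero, Finset.univ_unique, Finset.sum_singleton]
    rfl
  | j + 1, Y, ⟨h1, h2⟩, V, hV => by
    have h3 : ∀ s : Fin 4, ∃ m : Fin 4 → Fin (2 ^ j) → ℝ, ∀ q,
        bs (qb V m q) = flx j fun p => Y (s, q, p) := by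
      intro s
      have hc : ∀ c : ℝ, ∑ _k : Fin (2 ^ j), c / 2 ^ j = c := by
        intro c
        rw [Finset.sum_const, Finset.card_univ, Fintype.card_fin, nsmul_eq_mul]
        push_cast
        field_simp
      obtain ⟨f, hf⟩ : ∃ f : Fin 4 → ℝ, ∀ q, f q = flx j fun p => Y (s, q, p) := ⟨_, fun _ => rfl⟩
      have hs : bs V = f 0 + f 1 + f 2 + f 3 := by
        rw [hV]
        change ∑ q : Fin 4, flx j (fun p => Y (0, q, p)) = _
        rw [← h2 s, Fin.sum_univ_four, hf, hf, hf, hf]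
      unfold bs at hs
      rw [sum_pos fun k => V (0, k), sum_pos fun k => V (1, k), sum_pos fun k => V (2, k),
        sum_pos fun k => V (3, k)] at hs
      obtain ⟨M, h0, h1, h2, h3⟩ : ∃ M : Fin 4 → ℝ, M 0 = 0 ∧
          M 1 = ∑ k, V (0, pos 1 k) + ∑ k, V (1, pos 0 k) -
            (f 0 - ∑ k, V (0, pos 0 k) + ∑ k, V (3, pos 0 k)) - f 1 ∧
          M 2 = f 0 - ∑ k, V (0, pos 0 k) + ∑ k, V (3, pos 0 k) ∧
          M 3 = f 2 + ∑ k, V (2, pos 0 k) + ∑ k, V (3, pos 1 k) :=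
        ⟨![_, _, _, _], rfl, rfl, rfl, rfl⟩
      refine ⟨fun i _ => M i / 2 ^ j, fun q => ?_⟩
      rw [← hf]
      revert q
      rw [Fin.forall_fin_succ, Fin.forall_fin_succ, Fin.forall_fin_succ, Fin.forall_fin_one]
      refine ⟨?_, ?_, ?_, ?_⟩
      · rw [qb0, hc, hc, h0, h2]
        ring
      · change bs (qb V _ 1) = f 1
        rw [qb1, hc, hc, h1, h2]
        ring
      · change bs (qb V _ 2) = f 2
        rw [qb2, hc, hc, h0, h3]
        ring
      · change bs (qb V _ 3) = f 3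
        rw [qb3, hc, hc, h1, h3]
        linarith
    choose m hm using h3
    have h4 : ∀ s q : Fin 4, ∃ A : Ed j → ℝ, (∀ b, A (.inl b) = qb V (m s) q b) ∧
        ∀ p, cv A p = Y (s, q, p) := fun s q => poincare j _ (h1 s q) _ (hm s q)
    choose A hA1 hA2 using h4
    let B : Ed (j + 1) → ℝ := Sum.elim V (Sum.elim (fun e => m e.1 e.2.1 e.2.2)
      fun e => A e.1 e.2.1 (.inr e.2.2))
    refine ⟨B, fun b => rfl, fun p => ?_⟩
    obtain ⟨s, q, p⟩ := p
    have h5 : ∀ e : Ed j, B (emb s q e) = A s q e := by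
      rintro (b | e)
      · rw [emb_inl B s q b, hA1]
        rfl
      · rfl
    rw [← hA2 s q p]
    change B (emb s q (bd j p 0)) + B (emb s q (bd j p 1)) - B (emb s q (bd j p 2)) -
      B (emb s q (bd j p 3)) = _
    rw [h5, h5, h5, h5]
    rfl

/-- **exact two-forms are the closed two-forms** -/
theorem exact_iff (j : ℕ) (Y : Pq j → ℝ) :
    (∃ A : Ed j → ℝ, ∀ p, Y p = A (bd j p 0) + A (bd j p 1) - A (bd j p 2) - A (bd j p 3)) ↔
      Clo j Y := by
  constructor
  · rintro ⟨A, hA⟩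
    have h1 : Y = cv A := funext hA
    rw [h1]
    exact clo_cv j A
  · intro h
    obtain ⟨A, _, hA⟩ := poincare j Y h (fun b => if b.1 = 0 then flx j Y / 2 ^ j else 0) (by
      have e1 : (1 : Fin 4) ≠ 0 := by decide
      have e2 : (2 : Fin 4) ≠ 0 := by decide
      have e3 : (3 : Fin 4) ≠ 0 := by decide
      unfold bs
      simp only [if_true, if_neg e1, if_neg e2, if_neg e3, Finset.sum_const_zero, Finset.sum_const,
        Finset.card_univ, Fintype.card_fin, nsmul_eq_mul]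
      push_cast
      field_simp
      ring)
    exact ⟨A, fun p => (hA p).symm⟩

end

end Pool.Agent.N565.MK
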