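import Mathlib
import Pool.Agent.N989.MK.Model

/-!
# Existence of a non-trivial irreducible constituent of the defining representation
-/

set_option autoImplicit false

open Matrix Module

namespace Pool.Agent.N565.MK

open Pool.Agent.N989.MK

noncomputable section

variable {N : ℕ}

/-- the space -/
abbrev ES (N : ℕ) : Type := EuclideanSpace ℂ (Fin N)

/-- the operator of a matrix -/
def Op (A : Matrix (Fin N) (Fin N) ℂ) : ES N →L[ℂ] ES N :=
  Matrix.toEuclideanCLM (n := Fin N) (𝕜 := ℂ) A

theorem Op_mul (A B : Matrix (Fin N) (Fin N) ℂ) : Op (A * B) = Op A * Op B := map_mul _ A B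

theorem Op_one : Op (1 : Matrix (Fin N) (Fin N) ℂ) = 1 := map_one _

theorem Op_star (A : Matrix (Fin N) (Fin N) ℂ) : Op (star A) = star (Op A) := map_star _ A

theorem Op_inj {A B : Matrix (Fin N) (Fin N) ℂ} (h : Op A = Op B) : A = B :=
  (Matrix.toEuclideanCLM (n := Fin N) (𝕜 := ℂ)).injective h

theorem Op_surj (T : ES N →L[ℂ] ES N) : ∃ A : Matrix (Fin N) (Fin N) ℂ, Op A = T :=
  (Matrix.toEuclideanCLM (n := Fin N) (𝕜 := ℂ)).surjective T

variable {G : Subgroup (unitaryGroup (Fin N) ℂ)}

/-- invariant subspaces -/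
def Inv (G : Subgroup (unitaryGroup (Fin N) ℂ)) (V : Submodule ℂ (ES N)) : Prop :=
  ∀ g : G, ∀ x ∈ V, Op (mx g) x ∈ V

/-- non-trivial action -/
def Nt (G : Subgroup (unitaryGroup (Fin N) ℂ)) (V : Submodule ℂ (ES N)) : Prop :=
  ∃ g : G, ∃ x ∈ V, Op (mx g) x ≠ x

theorem star_mx (g : G) : star (mx g) = mx g⁻¹ := rfl

theorem Inv.orth {V : Submodule ℂ (ES N)} (h : Inv G V) : Inv G Vᗮ := by
  intro g x hx
  rw [Submodule.mem_orthogonal] at hx ⊢
  intro y hy
  have h1 : inner ℂ y (Op (mx g) x) = inner ℂ (star (Op (mx g)) y) x := by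
    rw [ContinuousLinearMap.star_eq_adjoint, ContinuousLinearMap.adjoint_inner_left]
  rw [h1, ← Op_star, star_mx]
  exact hx _ (h g⁻¹ y hy)

theorem Inv.inf {V V' : Submodule ℂ (ES N)} (h : Inv G V) (h' : Inv G V') : Inv G (V ⊓ V') :=
  fun g x hx => ⟨h g x hx.1, h' g x hx.2⟩

/-- the projection on an invariant subspace commutes with the group -/
theorem Inv.comm {V : Submodule ℂ (ES N)} (h : Inv G V) (g : G) (x : ES N) :
    V.starProjection (Op (mx g) x) = Op (mx g) (V.starProjection x) := by
  refine Submodule.eq_starProjection_of_mem_orthogonal (K := V) ?_ ?_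
  · exact h g _ (Submodule.starProjection_apply_mem V x)
  · rw [← map_sub]
    exact h.orth g _ (Submodule.sub_starProjection_mem_orthogonal x)

theorem exists_constituent (hG : SimpleGroup G) :
    ∃ P : Matrix (Fin N) (Fin N) ℂ, Constituent G P := by
  classical
  have htop : Nt G ⊤ := by
    by_contra hcon
    unfold Nt at hcon
    push Not at hcon
    obtain ⟨g, h, hgh⟩ := hG.nonabelian
    apply hgh
    have h1 : ∀ g : G, mx g = 1 := fun g => Op_inj (by
      rw [Op_one]
      exact ContinuousLinearMap.ext fun x => hcon g x trivial)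
    have h2 : ∀ g : G, g = 1 := fun g => Subtype.ext (Subtype.ext (h1 g))
    rw [h2 g, h2 h]
  let s : Set (Submodule ℂ (ES N)) := {V | Inv G V ∧ Nt G V}
  have hs : s.Nonempty := ⟨⊤, fun _ _ _ => trivial, htop⟩
  let V := Function.argminOn (fun V : Submodule ℂ (ES N) => finrank ℂ V) s hs
  have hV : V ∈ s := Function.argminOn_mem _ s hs
  have hmin : ∀ V' ∈ s, finrank ℂ V ≤ finrank ℂ V' := fun V' hV' =>
    Function.argminOn_le (fun V : Submodule ℂ (ES N) => finrank ℂ V) s hV'
  obtain ⟨hVi, hVn⟩ := hV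
  have htriv : ∀ V', Inv G V' → V' < V → ∀ g : G, ∀ x ∈ V', Op (mx g) x = x := by
    intro V' hi hlt
    by_contra hcon
    push Not at hcon
    exact absurd (hmin V' ⟨hi, hcon⟩) (not_le.2 (Submodule.finrank_lt_finrank_of_lt hlt))
  have hne : ∃ x ∈ V, x ≠ 0 := by
    obtain ⟨g, x, hx, hgx⟩ := hVn
    refine ⟨x, hx, fun h0 => hgx ?_⟩
    rw [h0, map_zero]
  obtain ⟨P, hP⟩ := Op_surj V.starProjection
  have hself : ∀ x ∈ V, V.starProjection x = x := fun x hx =>
    Submodule.starProjection_eq_self_iff.2 hx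
  have hmem : ∀ x, V.starProjection x ∈ V := fun x => Submodule.starProjection_apply_mem V x
  refine ⟨P, ?_, ?_, ?_, ?_, ?_, ?_⟩
  · apply Op_inj
    change Op (star P) = Op P
    rw [Op_star, hP]
    exact isSelfAdjoint_starProjection V
  · apply Op_inj
    rw [Op_mul, hP]
    exact ContinuousLinearMap.ext fun x => hself _ (hmem x)
  · rintro rfl
    obtain ⟨x, hx, hx0⟩ := hne
    have h1 := hself x hx
    rw [← hP] at h1
    have h2 : Op (0 : Matrix (Fin N) (Fin N) ℂ) = 0 := map_zero _
    rw [h2] at h1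
    exact hx0 h1.symm
  · intro g
    apply Op_inj
    rw [Op_mul, Op_mul, hP]
    exact ContinuousLinearMap.ext fun x => hVi.comm g x
  · intro A hA
    have hC : ∀ g x, Op A (Op (mx (G := G) g) x) = Op (mx g) (Op A x) := fun g x => by
      have h1 := congrArg Op (hA g)
      rw [Op_mul, Op_mul] at h1
      exact congrArg (fun T : ES N →L[ℂ] ES N => T x) h1
    let Rr : Module.End ℂ V :=
      { toFun := fun v => ⟨V.starProjection (Op A v.1), hmem _⟩
        map_add' := fun a b => Subtype.ext (by
          change V.starProjection (Op A (a.1 + b.1)) = _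
          rw [map_add, map_add]
          rfl)
        map_smul' := fun c a => Subtype.ext (by
          change V.starProjection (Op A (c • a.1)) = _
          rw [map_smul, map_smul]
          rfl) }
    have : Nontrivial V := by
      obtain ⟨x, hx, hx0⟩ := hne
      exact ⟨⟨⟨x, hx⟩, 0, fun h => hx0 (congrArg Subtype.val h)⟩⟩
    obtain ⟨c, hc⟩ := Module.End.exists_eigenvalue Rr
    obtain ⟨e, he⟩ := hc.exists_hasEigenvector
    let K : Submodule ℂ (ES N) :=
      { carrier := {x | x ∈ V ∧ V.starProjection (Op A x) = c • x}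
        zero_mem' := ⟨V.zero_mem, by rw [map_zero, map_zero, smul_zero]⟩
        add_mem' := by
          rintro a b ⟨ha, ha'⟩ ⟨hb, hb'⟩
          exact ⟨V.add_mem ha hb, by rw [map_add, map_add, ha', hb', smul_add]⟩
        smul_mem' := by
          rintro r a ⟨ha, ha'⟩
          exact ⟨V.smul_mem r ha, by rw [map_smul, map_smul, ha', smul_comm]⟩ }
    have hKV : K ≤ V := fun x hx => hx.1
    have hKi : Inv G K := fun g x hx => ⟨hVi g x hx.1, by
      rw [hC, hVi.comm, hx.2, map_smul]⟩
    have heK : e.1 ∈ K := ⟨e.2, congrArg Subtype.val he.apply_eq_smul⟩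
    have he0 : e.1 ≠ 0 := fun h => he.2 (Subtype.ext h)
    have hKtop : K = V := by
      by_contra hKne
      have hKlt : K < V := lt_of_le_of_ne hKV hKne
      have h1 := htriv K hKi hKlt
      have h2 : V ⊓ Kᗮ < V := by
        refine lt_of_le_of_ne inf_le_left fun h => he0 ?_
        have h3 : e.1 ∈ V ⊓ Kᗮ := by
          rw [h]
          exact e.2
        have h4 := (Submodule.mem_orthogonal K e.1).1 h3.2 e.1 heK
        exact inner_self_eq_zero.1 h4
      have h5 := htriv _ (hVi.inf hKi.orth) h2
      obtain ⟨g, x, hx, hgx⟩ := hVn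
      apply hgx
      have h6 : K.starProjection x ∈ K := Submodule.starProjection_apply_mem K x
      have h7 : x - K.starProjection x ∈ V ⊓ Kᗮ :=
        ⟨V.sub_mem hx (hKV h6), Submodule.sub_starProjection_mem_orthogonal x⟩
      have h8 : x = K.starProjection x + (x - K.starProjection x) := by abel
      calc Op (mx g) x = Op (mx g) (K.starProjection x) + Op (mx g) (x - K.starProjection x) := by
            rw [← map_add, ← h8]
        _ = K.starProjection x + (x - K.starProjection x) := by
            rw [h1 g _ h6, h5 g _ h7]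
        _ = x := h8.symm
    refine ⟨c, Op_inj ?_⟩
    have h9 : Op (c • P) = c • Op P := map_smul _ c P
    rw [Op_mul, Op_mul, h9, hP]
    refine ContinuousLinearMap.ext fun x => ?_
    have h10 : V.starProjection x ∈ K := by
      rw [hKtop]
      exact hmem x
    exact h10.2
  · obtain ⟨g, x, hx, hgx⟩ := hVn
    refine ⟨g, fun h => hgx ?_⟩
    have h1 := congrArg (fun T : Matrix (Fin N) (Fin N) ℂ => Op T x) h
    simp only [Op_mul, hP] at h1
    have h2 : V.starProjection (Op (mx g) x) = V.starProjection x := h1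
    rw [hself x hx, hself _ (hVi g x hx)] at h2
    exact h2

end

end Pool.Agent.N565.MK
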